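import Pool.Agent.J6H99.NX.Walks

/-!
# No corners of the limit shape, weights with an exponential moment: statements of the modules

Same modules as in `Pool/Agent/J6H99/NC/Stm.lean`, with `[MB q F]` (exponential moment) instead of
bounded weights. The only changes are: `ε < 1` instead of `ε ≤ 1`; CORE has no last step.
Deterministic bounds by straight walks are replaced by

* means: `mean_cost`, `lint_X_le`, `mean_T_le`, `g_le`, `g_lip` (`Exp.lean`), for a fixed path;
* rare events: `lint_on_le` (Cauchy-Schwarz), for a fixed path;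
* all pairs of points of a ball at once, with probability `1 - O (m ^ (-k))` for every `k`:
  `prob_Cheap` (straight paths `sw x y`, `sw_near`), `prob_TB` (passage times), `union_pairs`
  (any family of fixed paths, with `tail_cost`) (`Walks.lean`).
-/

set_option autoImplicit false

open MeasureTheory ProbabilityTheory Filter Topology
open scoped ENNReal

namespace Pool.Agent.J6H99.NX

/-- MODULE CHAIN (helper99). For every rule which reaches the point `y i` on the event `W i`, where
`W i` depends only on the edges with a point of level less than that of `y i`, the mean cost is at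
least the mean gain. -/
def ChainT : Prop := ∀ (e : ℕ) (q : Par) (F : Measure ℝ) [IsProbabilityMeasure F] [MB q F],
  VarB e q F → FarB e q F → ∀ c : E e, c ≠ 0 → (∀ x : V e, lf c x ≤ g q F x) →
  ∀ (I : Type) [Countable I] (W : I → Set (Om e)) (y : I → V e) (L : ℝ),
    (∀ i, MeasurableSet[MS (Low c (lf c (y i)))] (W i)) →
    (∀ i j, i ≠ j → Disjoint (W i) (W j)) → (⋃ i, W i) = Set.univ →
    (∀ i, 0 ≤ lf c (y i)) → (∀ i, lf c (y i) ≤ L) →
    ∑' i, PM e F (W i) * ENNReal.ofReal (lf c (y i)) ≤
      ∑' i, ∫⁻ ω in W i, X q ω (Slab c 0 (lf c (y i))) 0 {y i} ∂(PM e F)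

/-- MODULE U. If tubes of length `l` and width `w` can be crossed with probability at least `ε`,
then the point `l v` can be reached with mean excess `C (w + 1)` in the strip
`{s v + t p : 0 ≤ s ≤ l, 0 ≤ t}`.

Proof. `m = C1 (w + 1)`, `z_j = rnd (j m p)`. The tubes `z_j + Tube D l w` are disjoint (a tube lies
in the neighbourhood of width `w / c0` of the line `ℝ v` by `Cor.near_line`, and the distance of
`j m p` to the line `ℝ v` is `j m c_p`), so the translated events `K` are independent, each with
probability at least `ε`. Let `J` be the first `j` with success: go straight from `0` to `z_J`, cross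
the tube, go straight back to `rnd (l v)` (`Ev_seg`), all in the strip. The cost is at most
`l + w + C m (J + 1)`, and `P (J ≥ j) ≤ (1 - ε)^j`.
NX: fixed straight paths; `lint_on_le` with `ρ ^ 2 = P (J = j)`. -/
def UT : Prop := ∀ (e : ℕ) (q : Par) (F : Measure ℝ) [IsProbabilityMeasure F] [MB q F] (ι : Type) [Fintype ι]
  (D : Cor e q F ι) (ε : ℝ), 0 < ε → ∀ p : E e, (∀ t : ℝ, p ≠ t • D.v) →
  ∃ C : ℝ, 0 < C ∧ ∀ l w : ℕ, ENNReal.ofReal ε ≤ PM e F (K D l w) →
    ∫⁻ ω, X q ω (EIn (Strip D.v p l (C * (w + 1)))) 0 {rnd ((l : ℝ) • D.v)} ∂(PM e F) ≤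
      ENNReal.ofReal (l + C * (w + 1))

/-- MODULE REACH. A point near `A y` can be reached inside the slab `0 ≤ c < A (c · y)` with mean
cost at most `A (γ + δ)`, if `A ≥ A0 (δ)`.

Proof. Fix `n` large; let `x_j = rnd (j n y)`. By `FarB` (with `p = 2`, say) the passage time from
`0` to `rnd (n y)` restricted to a ball of radius `R n` has mean at most `n γ + δ n / 4` (`T` is
attained in the ball unless some far point is reached too early; on that event use a straight walk).
`x_(j+1) - x_j` differs from `rnd (n y)` by a bounded vector. Go straight from `0` to `x_M` (`M n y`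
deep enough inside that the balls around `x_j`, `j ≥ M`, are in `c ≥ 0`), then from block to block as
long as the balls are in `c < A (c · y)`, then straight along the line `ℝ y` (a chain of lattice
points near the line) and stop at the first vertex of level at least `A (c · y)`. The total mean is
at most `A (γ + δ / 2) + C (n, M)`.
NX: `lint_on_le` for the straight path on the bad event, `lint_X_le` for the other straight paths. -/
def ReachT : Prop := ∀ (e : ℕ) (q : Par) (F : Measure ℝ) [IsProbabilityMeasure F] [MB q F],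
  FarB e q F → ∀ (c y : E e) (γ : ℝ), 0 < dt c y →
  (∀ᶠ n : ℕ in atTop, g q F (rnd ((n : ℝ) • y)) ≤ n * γ) →
  ∃ C : ℝ, 0 < C ∧ ∀ δ : ℝ, 0 < δ → ∃ A0 : ℝ, ∀ A : ℝ, A0 ≤ A →
    ∃ z : V e, nr (vc z - A • y) ≤ C ∧ A * dt c y ≤ lf c z ∧
      ∫⁻ ω, X q ω (Slab c 0 (A * dt c y)) 0 {z} ∂(PM e F) ≤ ENNReal.ofReal (A * (γ + δ))

/-- the forward search events are improbable -/
def SSfB {e : ℕ} {q : Par} {F : Measure ℝ} [IsProbabilityMeasure F] {ι : Type} [Fintype ι]
    (D : Cor e q F ι) (ε : ℝ) : Prop :=
  ∀ (i : ι) (W κ η : ℝ), 0 < W → 0 < κ → 0 < η → ∃ Cs : ℕ, ∀ l : ℕ, Cs ≤ kk D ε l →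
    PM e F (SSf D i l (W * kk D ε l) (κ * kk D ε l)) ≤ ENNReal.ofReal η

/-- the search events are improbable -/
def SSgB {e : ℕ} {q : Par} {F : Measure ℝ} [IsProbabilityMeasure F] {ι : Type} [Fintype ι]
    (D : Cor e q F ι) (ε : ℝ) : Prop :=
  ∀ (i : ι) (W κ η : ℝ), 0 < W → 0 < κ → 0 < η → ∃ Cs : ℕ, ∀ l : ℕ, Cs ≤ kk D ε l →
    PM e F (SSg D i l (W * kk D ε l) (κ * kk D ε l)) ≤ ENNReal.ofReal η

/-- MODULE CL (helper99). Search in `M` disjoint tubes, started at points `z_j` near
`A v + j W' u_i`, reached by `ReachT` in the directions `v + s_j u_i` (tangency); default path with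
`UT`; `ChainT` for the first success, in the order of the level of the end point. -/
def ClT : Prop := ChainT → UT → ReachT → ∀ (e : ℕ) (q : Par) (F : Measure ℝ)
  [IsProbabilityMeasure F] [MB q F] (ι : Type) [Fintype ι] (D : Cor e q F ι), VarB e q F → FarB e q F →
  ∀ ε : ℝ, 0 < ε → ε < 1 → SSfB D ε

/-- MODULE SS. From forward to general search events.

Proof. Write `f = f i`, `k = kk D ε l`. Let a walk `0 → y` in `Tube D l (W k)` have cost
`≤ f y - κ k`. Let `z` be the last vertex where `f` is minimal on the walk, `y'` the first vertex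
after `z` where `f` is maximal on the rest. The part `z → y'` has cost `≤ f y' - f z - κ k` (as
`f z ≤ 0`, `f y ≤ f y'`), levels in `[f z, f y']`, and the level `f y'` only at its end. As
`f z ≤ 0` and `z` is in the tube, `|z| ≤ C W k` (`f_sub_chi_ge`, `near_line`). Let `r = ⌈θ k⌉`,
`z0 = r • (z / r) - n0 • (± u j)` where `j` is a coordinate with `f j ≠ 0`, `n0 = ⌈C r⌉`, so that a
straight walk from `z0` to `z` stays at levels `≥ f z0`, and `≤ f z + κ k / 2 < f y'`, and costs at
most `κ k / 2` (`θ` small). So the translate by `z0` of `SSf D i l (W' k) (κ k / 2)` occurs. There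
are at most `n (W, θ)` possible `z0` (constant), hence the union bound with `η' = η / n`.
NX: outside of an event of probability `O (1 / k)` all the straight walks used are cheap
(`union_pairs` / `tail_cost`). -/
def SsT : Prop := ∀ (e : ℕ) (q : Par) (F : Measure ℝ) [IsProbabilityMeasure F] [MB q F] (ι : Type)
  [Fintype ι] (D : Cor e q F ι) (ε : ℝ), 0 < ε → ε < 1 → SSfB D ε → SSgB D ε

/-- MODULE GROW. `k (N l) ≥ κ0 N k (l)` for large `k (l)`, `κ0` independent of `N`.

Proof. Constants: `θ2, κ1, δ2`, then `κ0` (`κ0 ≤ δ2 / 4`), then `N`, then `ε ≤ ε_N`, then `Cs`. Let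
`k = kk D ε l` and suppose `w = κ0 N k > kk D ε (N l)`: `P (K D (N l) w) ≥ ε`. Take a walk
`0 → rnd (N l v)` in `Tube D (N l) w` of cost `≤ N l + w`. Crossing `j < N`: the part from the last
visit of `χ ≤ j l` to the first visit of `χ ≥ (j + 1) l` (after it; cut successively). The end
points are in `O (w)`-neighbourhoods of `j l v`, so in boundedly many cells (size `θ0 k`). If no
general search event (forward, and, by the reflection `x ↦ -x`, backward) of gain `κ1 k` occurs from
the cell centres (probability `≤ N n_w η ≤ ε / 4`), then every part of a crossing with displacement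
`Δ` costs at least `f i Δ - κ1 k` for every `i`, so a crossing costs at least
`χ Δ + c0 |lateral part of Δ| - κ1 k`. Sum: all but at most `N / 4` (say) of the crossings are
`good`: lateral displacement `≤ θ2 k` and cost `≤ l + δ2 k`. A good crossing from the cell centre
`c`: either it stays in `c + Tube D l (k - 1)` and together with straight walks at both ends gives the
event `K D l (k - 1)` at `c`, of probability `< ε`; or it leaves this tube at a point `z` and costs
at least `f i z - κ1 k + χ (end - z) - κ1 k ≥ l + k - 1 - ... > l + δ2 k`. So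
`P (good crossing of block j from cell c) ≤ ε` (+ excluded events), the blocks are independent (edges
of different slabs), `P (two different blocks have a good crossing from some cell) ≤ N² n_w² ε² <
ε / 4` for `ε ≤ ε_N`. So at most one good block with probability `> 1 - ε / 2`; contradiction for
`N ≥ 2`.
NX: the straight walks used inside the cells are cheap outside of an event of probability `O (1 / k)`
(`prob_Cheap`, `union_pairs`, `prob_TB`), added to the excluded events. -/
def GrowT : Prop := ∀ (e : ℕ) (q : Par) (F : Measure ℝ) [IsProbabilityMeasure F] [MB q F] (ι : Type)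
  [Fintype ι] (D : Cor e q F ι), (∀ ε : ℝ, 0 < ε → ε < 1 → SSgB D ε) →
  ∃ κ0 : ℝ, 0 < κ0 ∧ ∀ N : ℕ, 1 ≤ N → ∃ εN : ℝ, 0 < εN ∧ ∀ ε : ℝ, 0 < ε → ε ≤ εN →
    ∃ Cs : ℕ, ∀ l : ℕ, Cs ≤ kk D ε l → κ0 * N * kk D ε l ≤ kk D ε (N * l)

/-- MODULE POWER. The tube of width `C l ^ θ` is crossed with probability at least `1 / 2`, `θ < 1`.

Proof (helper59). `Δ (m) = C m^(1-η')`: by Chebyshev (`VarB`) on pairs of mesh points, with
probability `≥ 3/4` all `|T (x, y) - g (y - x)| ≤ Δ (m)` for `x, y` in a box of radius `C m`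
(`T` is Lipschitz: `|T x y - T x' y'| ≤ b (|x - x'| + |y - y'|)`); `FarB` keeps the (near) geodesics in
the box. Let `G (m) = inf {g z - m : χ z ≥ m}` (`0 ≤ G (m) ≤ o (m)` by `lb`, `ub`). For a fixed number
`N'` of blocks (cut a near geodesic `0 → z`, `χ z ≥ N' m`, at the levels `j m` of `χ`):
`G (N' m) ≥ N' (G (m) - Δ (m)) - ...`, so `G (m) ≤ G (N' m) / N' + 2 Δ (m)` and by iteration
`G (m) ≤ C' m^(1-η')`. A `z` with `χ z ≥ m`, `g z ≤ m + C' m^(1-η') + 1` has
`g z ≥ f i z ≥ χ z + c0 |z - χ z v|`, hence `|z - m v| ≤ C'' m^(1-η')` and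
`g (rnd (m v)) ≤ m + C''' m^(1-η')`. Finally the (near) geodesic from `rnd (w v)` to `rnd ((l - w) v)`
(`w = C l^θ`), with straight ends, stays in the tube: a vertex `y` on it has
`T ≥ g (y - x) + g (x' - y) - 2 Δ ≥ f i (y - x) + χ (x' - y) - 2 Δ`.
NX: Lipschitz bounds from `prob_TB`, straight ends from `tail_cost` / `prob_Cheap`. -/
def PowT : Prop := ∀ (e : ℕ) (q : Par) (F : Measure ℝ) [IsProbabilityMeasure F] [MB q F] (ι : Type)
  [Fintype ι] (D : Cor e q F ι), VarB e q F → FarB e q F →
  ∃ θ C : ℝ, θ < 1 ∧ ∀ l : ℕ, 1 ≤ l → ∃ w : ℕ, (w : ℝ) ≤ C * (l : ℝ) ^ θ ∧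
    ENNReal.ofReal (1 / 2) ≤ PM e F (K D l w)

/-- nondegenerate weights -/
def NonDeg (q : Par) (F : Measure ℝ) : Prop :=
  ∃ a' b' : ℝ, a' < b' ∧ 0 < F {t | q.w t ≤ a'} ∧ 0 < F {t | b' ≤ q.w t}

/-- MODULE START. The quantiles are unbounded.

Proof (helper59). Otherwise `P (K D l Cs) ≥ ε` for all `l`. In blocks of fixed large length `L` of a
wider tube: with positive probability all edges meeting the narrow tube `Tube D l Cs` in the block
have weight `≥ b'` and a path just outside of the narrow tube, of at most `|L v|_1 + O (Cs)` edges,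
has weights `≤ a'`; then a crossing of the block in the narrow tube (at least `|L v|_1 - O (Cs)`
edges) can be replaced with gain `g > 0`. So `P (T (0, l v) ≤ (1 - c) l) ≥ ε / 2` for large `l`,
against `g ≥ χ`, `χ v = 1` and Chebyshev. (The narrow tube crossing cost is an increasing function of
the weights; use independence of the blocks, a law of large numbers (Chebyshev / binomial) for the
number of good blocks, and that the walk crosses every block.) -/
def StartT : Prop := ∀ (e : ℕ) (q : Par) (F : Measure ℝ) [IsProbabilityMeasure F] [MB q F] (ι : Type)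
  [Fintype ι] (D : Cor e q F ι), VarB e q F → NonDeg q F →
  ∀ ε : ℝ, 0 < ε → ε < 1 → ∀ Cs : ℕ, ∃ l : ℕ, 1 ≤ l ∧ Cs ≤ kk D ε l

/-- MODULE END (easy). The contradiction: `N` with `κ0 N ≥ 1`, `κ0 N > N^θ`; `ε ≤ ε_N`, `ε ≤ 1 / 2`;
`l0` with `kk D ε l0 ≥ max Cs 1`; `(κ0 N)^j ≤ kk D ε (N^j l0) ≤ C (N^j l0)^θ` (`kk_le`). -/
def EndT : Prop := ClT → SsT → GrowT → PowT → StartT → ChainT → UT → ReachT →
  ∀ (e : ℕ) (q : Par) (F : Measure ℝ) [IsProbabilityMeasure F] [MB q F] (ι : Type) [Fintype ι]
    (_ : Cor e q F ι), VarB e q F → FarB e q F → NonDeg q F → False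

/-- MODULE LAW. The variance bound and the bound for far points, for weights with an exponential
moment which are almost surely positive.

NX: Efron-Stein: `(T^s - T)_+ ≤ w'_s` if the geodesic uses `s`, `0` otherwise, and `w'_s` is
independent of the geodesic: `Var T ≤ ∑_s b² P (s in the geodesic)`; `E |geodesic| ≤ C |x|` by the
path counting and `tail_T` (`T (0, x) ≤ c1 n` outside an exponentially small event for `n ≥ C |x|`).

Proof. FarB: choose `δ` with `F {w ≤ δ}` small. A walk (path) of length `n` with cost `< δ n / 4` has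
more than `n / 2` edges with weight `≤ δ`: probability at most `2^n F{w ≤ δ}^(n/2)`, there are at most
`(2 d)^n` paths from `0`; so `P (some self-avoiding path of length ≥ n from 0 has cost < c1 length)`
is exponentially small. VarB: Efron-Stein (see `Pool/Agent/J6H0/FPP/Var.lean` of the lead for
`a > 0`): `Var T ≤ ∑_e E (T^e - T)_+^2 ≤ b² E |geodesic|`, and the number of edges of a geodesic
`0 → x` is at most `C |x|` outside an event of exponentially small probability by the path counting
(`T ≤ b |x|`); geodesics exist almost surely by the same bound. -/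
def LawT : Prop := ∀ (e : ℕ) (q : Par) (F : Measure ℝ) [IsProbabilityMeasure F] [MB q F],
  F {t | q.w t ≤ 0} = 0 → VarB e q F ∧ FarB e q F

/-- MODULE POLY (all dimensions). The limit shape is not a polytope: no finite set of functionals
determines the time constant.

Proof. Take `S` minimal (irredundant). `P = {y : ∀ c ∈ S, dt c y ≤ 1}` is a compact polytope
(`FarB`: the time constant is positive) with `0` inside; let `v` be a vertex (extreme point), `ι` the
set of the `c ∈ S` with `dt c v = 1`. Every `c ∈ ι` has a point `y` with `dt c y = 1` and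
`dt c' y < 1` for the other `c' ∈ S` (irredundance), `u c = y - v`: tangency along the segment from
`v` to `y`, where the time constant is `1`. `lat`: the common kernel of the differences of the
`c ∈ ι` is the line `ℝ v` (`v` is extreme), compactness. -/
def PolyT : Prop := ∀ (e : ℕ) (q : Par) (F : Measure ℝ) [IsProbabilityMeasure F] [MB q F], FarB e q F →
  (∀ (ι : Type) [Fintype ι] (_ : Cor e q F ι), False) →
  ∀ S : Finset (E e), (∀ c ∈ S, ∀ x : V e, lf c x ≤ g q F x) →
  (∀ y : E e, ∃ c ∈ S, ∀ δ : ℝ, 0 < δ →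
    ∀ᶠ n : ℕ in atTop, g q F (rnd ((n : ℝ) • y)) ≤ n * (dt c y + δ)) → False

/-! ### The plane, rays -/

/-- the functional `c` supports the time constant in the direction `y` -/
def Supp {e : ℕ} (q : Par) (F : Measure ℝ) [IsProbabilityMeasure F] (c y : E e) : Prop :=
  (∀ x : V e, lf c x ≤ g q F x) ∧
    ∀ δ : ℝ, 0 < δ → ∀ᶠ n : ℕ in atTop, g q F (rnd ((n : ℝ) • y)) ≤ n * (dt c y + δ)

/-- the functional `c` is the derivative of the time constant in the direction `y` -/
def Dif {e : ℕ} (q : Par) (F : Measure ℝ) [IsProbabilityMeasure F] (c y : E e) : Prop :=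
  (∀ x : V e, lf c x ≤ g q F x) ∧
    ∀ δ : ℝ, 0 < δ → ∃ s0 : ℝ, 0 < s0 ∧ ∀ s : ℝ, 0 < s → s ≤ s0 → ∀ z : E e, nr z ≤ 1 →
      ∀ᶠ n : ℕ in atTop, g q F (rnd ((n : ℝ) • (y + s • z))) ≤ n * (dt c (y + s • z) + δ * s)

/-- MODULE GEO (plane). If there are no corners, then in every direction there is exactly one
supporting functional, and it is the derivative.

Proof. `G (y) = lim g (rnd (n y)) / n` exists (subadditivity of `g`: `g (x + y) ≤ g x + g y`,
`g x ≤ b |x|_1`), is sublinear, `G ≥ dt c` iff `c` is at most `g` on the lattice, and the supremum of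
the `dt c y` over these `c` is `G y` (Hahn-Banach, `exists_extension_of_le_sublinear`), `G y > 0` for
`y ≠ 0` by `FarB`. If there are two supporting functionals at `v` (normalize `G v = 1`), let `f 0`,
`f 1` be the ones with the largest and smallest value on `u`, `u` not parallel to `v` (compactness),
`u 0 = u - f 0 (u) v`, `u 1 = -(u - f 1 (u) v)`: this is a `Cor 0 q F (Fin 2)`. Tangency: if
`G (v + s u 0) > 1 + δ s` for arbitrarily small `s`, supporting functionals at `v + s u 0` converge
(compactness) to a supporting functional at `v` with value `≥ δ` on `u 0`, contradiction with the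
choice of `f 0`. The same compactness gives `Dif` from uniqueness. -/
def GeoT : Prop := ∀ (q : Par) (F : Measure ℝ) [IsProbabilityMeasure F] [MB q F], FarB 0 q F →
  (∀ _ : Cor 0 q F (Fin 2), False) →
  ∀ y : E 0, y ≠ 0 → ∃ c : E 0, Supp q F c y ∧ Dif q F c y ∧ 0 < dt c y ∧
    ∀ c' : E 0, Supp q F c' y → c' = c

/-- MODULE INF (plane). There are infinitely many supporting functionals.

Proof. Otherwise the circle (or: the plane without `0`) is the union of finitely many closed sets
`{y : Supp c y}`, which are pairwise disjoint by the uniqueness in `GeoT`; by connectedness there is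
only one `c`, but `y` and `-y` cannot have the same `c` with `0 < dt c y` and `0 < dt c (-y)`. -/
def InfT : Prop := ∀ (q : Par) (F : Measure ℝ) [IsProbabilityMeasure F] [MB q F],
  (∀ y : E 0, y ≠ 0 → ∃ c : E 0, Supp q F c y ∧ Dif q F c y ∧ 0 < dt c y ∧
    ∀ c' : E 0, Supp q F c' y → c' = c) →
  {c : E 0 | ∃ y : E 0, y ≠ 0 ∧ Supp q F c y}.Infinite

/-- passage time to the half-space of level `t` -/
noncomputable def TH {e : ℕ} (q : Par) (ω : Om e) (c : E e) (z : V e) (t : ℝ) : ℝ :=
  ⨅ y : {y : V e // t ≤ lf c y}, T q ω z y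

/-- a minimal path from `0` to the half-space of level `t` passes through a point `z` at distance
`m` for which `g z` exceeds `c z` by more than `η m` -/
def Bad {e : ℕ} (q : Par) (F : Measure ℝ) [IsProbabilityMeasure F] (c : E e) (η : ℝ) (m : ℕ)
    (t : ℝ) : Set (Om e) :=
  {ω | ∃ z : V e, n1 z = m ∧ T q ω 0 z + TH q ω c z t ≤ TH q ω c 0 t ∧ lf c z + η * m < g q F z}

/-- MODULE BUS. Averages of Busemann functions.

Proof. `h t = E TH 0 t` is nondecreasing, `h N / N → 1`-type bounds: `t ≤ h t + o(t)` and
`h t ≤ t + o (t)` when normalized by `dt c y = ...` (use `Dif`/`Supp` at `y` and `VarB`, `FarB`);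
`E TH z t` is `h` at `t - lf c z` (translation). Put `B_t z z' = TH z t - TH z' t`. For fixed `z` the
average over `t < N` of `E B_t 0 z` is within `C` of `lf c z` for large `N` (telescoping, monotone
`h`). `B_t x x' ≤ T x x'`. For `x = rnd (Λ m y)`: `B_t 0 x ≤ T 0 x ≤ lf c x + small` with high
probability and the average mean is `≈ lf c x`, so on average over `t`, `B_t 0 x ≥ lf c x - δ m` with
high probability; similarly `B_t (-x) 0 ≥ lf c x - δ m`. For `|z| = m`, with
`T z x ≤ g (x - z) + δ m ≤ lf c (x - z) + 2 δ m` (`Dif` at `y`, `Λ` large, a mesh and `VarB`) we get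
`B_t 0 z ≥ ...` and `B_t 0 z ≤ B_t 0 (-x) + T (-x) z ≤ lf c z + 3 δ m` simultaneously for all
`|z| = m`. On `Bad`: `T 0 z ≤ B_t 0 z ≤ lf c z + 3 δ m` while `T 0 z ≥ g z - δ m` for all `|z| = m`
with high probability. So `Bad` has small probability on average over `t`.
NX: `TH` is integrable (`int_T`), continuity in the mesh from `prob_TB` at scale `C m`. -/
def BusT : Prop := ∀ (e : ℕ) (q : Par) (F : Measure ℝ) [IsProbabilityMeasure F] [MB q F],
  VarB e q F → FarB e q F → ∀ c y : E e, 0 < dt c y → Dif q F c y → Supp q F c y →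
  ∀ η ε : ℝ, 0 < η → 0 < ε → ∃ m0 : ℕ, ∀ m : ℕ, m0 ≤ m → ∃ N0 : ℕ, ∀ N : ℕ, N0 ≤ N →
    ∑ t ∈ Finset.range N, PM e F (Bad q F c η m t) ≤ ENNReal.ofReal (ε * N)

/-- geodesic rays from `0` -/
def Ray {e : ℕ} (q : Par) (ω : Om e) (x : ℕ → V e) : Prop :=
  x 0 = 0 ∧ (∀ n, (lat e).Adj (x n) (x (n + 1))) ∧ Function.Injective x ∧
    ∀ m n, m ≤ n → T q ω (x m) (x n) = ∑ k ∈ Finset.Ico m n, q.w (ω s(x k, x (k + 1)))

/-- MODULE RAY. Finitely many separated functionals give as many rays.

Proof. Fix `ε`. For each of the functionals choose `m_1 < m_2 < ...` with average bad probabilities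
`≤ ε 2^(-i)` (`BusT`); for every `J` there are arbitrarily large `t` with
`P (⋃_{i ≤ J} Bad (m_i) t) ≤ ε`; so with probability `≥ 1 - ε` (limsup, then intersection over `J`)
for every `J` there are arbitrarily large `t` outside of `⋃_{i ≤ J} Bad (m_i) t`. Almost surely
(`FarB`, Borel-Cantelli) minimal paths from `0` to the half-spaces exist. König: a ray all of whose
initial segments are initial segments of such minimal paths for `J → ∞`; it is a geodesic ray and
its first point `z` (any point) with `|z| = m_i` has `g z ≤ lf c z + η m_i` for all `i` (use that all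
points of the path at distance `m_i` are good). By the separation the rays of different functionals
are different. -/
def RayT : Prop := BusT → ∀ (e : ℕ) (q : Par) (F : Measure ℝ) [IsProbabilityMeasure F] [MB q F],
  VarB e q F → FarB e q F → ∀ (s : Finset (E e)) (η : ℝ) (m1 : ℕ), 0 < η →
  (∀ c ∈ s, ∃ y : E e, 0 < dt c y ∧ Dif q F c y ∧ Supp q F c y) →
  (∀ c ∈ s, ∀ c' ∈ s, c ≠ c' → ∀ z : V e, (m1 : ℤ) ≤ n1 z →
    g q F z ≤ lf c z + η * n1 z → g q F z ≤ lf c' z + η * n1 z → False) →
  ∀ᵐ ω ∂(PM e F), ∃ R : Finset (ℕ → V e), s.card ≤ R.card ∧ ∀ x ∈ R, Ray q ω x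

/-- MODULE SEP (plane). Separation: different supporting functionals are separated.

Proof. Compactness of `{y : |y|_1 = 1}`: otherwise `z_n / |z_n| → y`, `G y ≤ dt c y`,
`G y ≤ dt c' y` (`G ≤ g` on the lattice, `G` continuous), so both `c`, `c'` support at `y`. -/
def SepT : Prop := ∀ (q : Par) (F : Measure ℝ) [IsProbabilityMeasure F] [MB q F],
  (∀ y : E 0, y ≠ 0 → ∃ c : E 0, Supp q F c y ∧ Dif q F c y ∧ 0 < dt c y ∧
    ∀ c' : E 0, Supp q F c' y → c' = c) →
  ∀ s : Finset (E 0), (∀ c ∈ s, ∃ y : E 0, y ≠ 0 ∧ Supp q F c y) →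
  ∃ (η : ℝ) (m1 : ℕ), 0 < η ∧ ∀ c ∈ s, ∀ c' ∈ s, c ≠ c' → ∀ z : V 0, (m1 : ℤ) ≤ n1 z →
    g q F z ≤ lf c z + η * n1 z → g q F z ≤ lf c' z + η * n1 z → False

end Pool.Agent.J6H99.NX
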