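import Pool.Agent.J6H99.NX.Base

/-!
# First-passage percolation: parameters for a law with an exponential moment
-/

set_option autoImplicit false

open MeasureTheory ProbabilityTheory Filter Topology
open scoped ENNReal

namespace Pool.Agent.J6H99.NX

/-- every law with an exponential moment satisfies the moment bounds for suitable parameters -/
theorem exists_MB (F : Measure ℝ) [IsProbabilityMeasure F] {β : ℝ} (hβ : 0 < β)
    (h : Integrable (fun t => Real.exp (β * max 0 t)) F) : ∃ q : Par, q.β = β ∧ MB q F := by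
  have hm : Measurable fun t : ℝ => max 0 t := measurable_const.max measurable_id
  -- moments
  have h1 : ∀ t : ℝ, max 0 t ≤ 1 / β * Real.exp (β * max 0 t) := by
    intro t
    have h0 : 0 ≤ max 0 t := le_max_left _ _
    have h2 := Real.add_one_le_exp (β * max 0 t)
    rw [div_mul_eq_mul_div, one_mul, le_div_iff₀ hβ]
    nlinarith
  have h2 : ∀ t : ℝ, max 0 t ^ 2 ≤ 2 / β ^ 2 * Real.exp (β * max 0 t) := by
    intro t
    have h0 : 0 ≤ max 0 t := le_max_left _ _
    have h3 := Real.quadratic_le_exp_of_nonneg (x := β * max 0 t) (by positivity)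
    have h4 : (β * max 0 t) ^ 2 / 2 ≤ Real.exp (β * max 0 t) := by
      have : 0 ≤ β * max 0 t := by positivity
      linarith
    rw [div_mul_eq_mul_div, le_div_iff₀ (by positivity)]
    nlinarith
  have i1 : Integrable (fun t : ℝ => max 0 t) F := by
    refine (h.const_mul (1 / β)).mono' hm.aestronglyMeasurable (Eventually.of_forall fun t => ?_)
    rw [Real.norm_eq_abs, abs_of_nonneg (le_max_left _ _)]
    exact h1 t
  have i2 : Integrable (fun t : ℝ => max 0 t ^ 2) F := by
    refine (h.const_mul (2 / β ^ 2)).mono' (hm.pow_const 2).aestronglyMeasurable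
      (Eventually.of_forall fun t => ?_)
    rw [Real.norm_eq_abs, abs_of_nonneg (sq_nonneg _)]
    exact h2 t
  set M : ℝ := ∫ t, Real.exp (β * max 0 t) ∂F with hM
  set S : ℝ := ∫ t, max 0 t ^ 2 ∂F with hS
  set m : ℝ := ∫ t, max 0 t ∂F with hm'
  have hM1 : 1 ≤ M := by
    have : ∫ _, (1 : ℝ) ∂F ≤ M := by
      refine integral_mono (integrable_const _) h fun t => ?_
      exact Real.one_le_exp (mul_nonneg hβ.le (le_max_left _ _))
    simpa using this
  have hS0 : 0 ≤ S := integral_nonneg fun t => sq_nonneg _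
  have hm0 : 0 ≤ m := integral_nonneg fun t => le_max_left _ _
  have hlog : 0 ≤ Real.log M := Real.log_nonneg hM1
  set b : ℝ := 1 + Real.log M / β + Real.sqrt S + m with hb
  have hsq := Real.sqrt_nonneg S
  have hlb : 0 ≤ Real.log M / β := by positivity
  have hb0 : 0 < b := by rw [hb]; linarith
  refine ⟨⟨b, β, hb0, hβ⟩, rfl, ?_⟩
  refine ⟨h, ?_, i2, ?_, i1, ?_⟩
  · show M ≤ Real.exp (β * b)
    rw [← Real.log_le_iff_le_exp (by linarith)]
    have h3 : Real.log M = β * (Real.log M / β) := by field_simp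
    rw [h3]
    refine mul_le_mul_of_nonneg_left ?_ hβ.le
    rw [hb]; linarith
  · show S ≤ b ^ 2
    have h3 : Real.sqrt S ≤ b := by rw [hb]; linarith
    calc S = Real.sqrt S ^ 2 := (Real.sq_sqrt hS0).symm
      _ ≤ b ^ 2 := pow_le_pow_left₀ hsq h3 2
  · show m ≤ b
    rw [hb]; linarith

/-- the same for a law on `[0, ∞)` -/
theorem exists_MB' (F : Measure ℝ) [IsProbabilityMeasure F] (h0 : F (Set.Iio 0) = 0) {β : ℝ}
    (hβ : 0 < β) (h : Integrable (fun t => Real.exp (β * t)) F) :
    ∃ q : Par, q.β = β ∧ MB q F := by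
  refine exists_MB F hβ (h.congr ?_)
  have h1 : ∀ᵐ t ∂F, ¬ t < 0 := by
    rw [ae_iff]; simpa [Set.Iio] using h0
  filter_upwards [h1] with t ht
  rw [max_eq_right (not_lt.1 ht)]

end Pool.Agent.J6H99.NX
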