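import Pool.Agent.J6H99.NX.Cor

/-!
# First-passage percolation: moments and exponential tails of the cost of a fixed path
-/

set_option autoImplicit false

open MeasureTheory ProbabilityTheory Filter Topology
open scoped ENNReal

namespace Pool.Agent.J6H99.NX

variable {e : ℕ}

/-- shortest walks are paths -/
lemma exists_path_len (x y : V e) :
    ∃ p : (lat e).Walk x y, p.IsPath ∧ (p.length : ℤ) = n1 (y - x) := by
  classical
  obtain ⟨p, hp⟩ := exists_walk_len x y
  refine ⟨p.bypass, p.bypass_isPath, ?_⟩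
  have h1 := p.length_bypass_le_length
  have h2 := n1_le_length p.bypass
  omega

lemma mp_eval (F : Measure ℝ) [IsProbabilityMeasure F] (s : Sym2 (V e)) :
    MeasurePreserving (fun ω : Om e => ω s) (PM e F) F :=
  measurePreserving_eval_infinitePi (fun _ : Sym2 (V e) => F) s

lemma indep_w (q : Par) (F : Measure ℝ) [IsProbabilityMeasure F] :
    iIndepFun (fun (s : Sym2 (V e)) (ω : Om e) => q.w (ω s)) (PM e F) :=
  iIndepFun_infinitePi (P := fun _ : Sym2 (V e) => F) (X := fun _ t => q.w t)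
    (fun _ => q.measurable_w)

open Classical in
/-- the cost of a path is a sum of independent variables -/
lemma cost_eq_sum (q : Par) (ω : Om e) {x y : V e} {p : (lat e).Walk x y} (hp : p.IsPath) :
    cost q ω p = ∑ s ∈ p.edges.toFinset, q.w (ω s) := by
  unfold cost
  rw [List.sum_toFinset _ hp.isTrail.edges_nodup]

open Classical in
lemma card_edges {x y : V e} {p : (lat e).Walk x y} (hp : p.IsPath) :
    p.edges.toFinset.card = p.length := by
  rw [List.toFinset_card_of_nodup hp.isTrail.edges_nodup, SimpleGraph.Walk.length_edges]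

lemma int_eval (F : Measure ℝ) [IsProbabilityMeasure F] (s : Sym2 (V e)) {f : ℝ → ℝ}
    (hf : Measurable f) : ∫ ω : Om e, f (ω s) ∂(PM e F) = ∫ t, f t ∂F := by
  have h1 := mp_eval (e := e) F s
  calc ∫ ω : Om e, f (ω s) ∂(PM e F)
      = ∫ t, f t ∂(Measure.map (fun ω : Om e => ω s) (PM e F)) :=
        (integral_map h1.measurable.aemeasurable hf.aestronglyMeasurable).symm
    _ = _ := by rw [h1.map_eq]

variable (q : Par) (F : Measure ℝ) [IsProbabilityMeasure F]

lemma mgf_one [MB q F] (s : Sym2 (V e)) :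
    Integrable (fun ω : Om e => Real.exp (q.β * q.w (ω s))) (PM e F) ∧
      mgf (fun ω : Om e => q.w (ω s)) (PM e F) q.β ≤ Real.exp (q.β * q.b) := by
  have h1 := mp_eval (e := e) F s
  have h2 : Measurable fun t : ℝ => Real.exp (q.β * q.w t) :=
    (q.measurable_w.const_mul _).exp
  constructor
  · exact (h1.integrable_comp h2.aestronglyMeasurable).2 MB.int_exp
  · unfold mgf
    have h3 : ∫ ω : Om e, Real.exp (q.β * q.w (ω s)) ∂(PM e F) =
        ∫ t, Real.exp (q.β * q.w t) ∂F := int_eval F s h2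
    rw [h3]
    exact MB.exp_le

/-- exponential moment of the cost of a path -/
theorem mgf_cost [MB q F] {x y : V e} {p : (lat e).Walk x y} (hp : p.IsPath) :
    Integrable (fun ω => Real.exp (q.β * cost q ω p)) (PM e F) ∧
      mgf (fun ω => cost q ω p) (PM e F) q.β ≤ Real.exp (q.β * (q.b * p.length)) := by
  classical
  have hm : ∀ s : Sym2 (V e), Measurable fun ω : Om e => q.w (ω s) := fun s =>
    q.measurable_w.comp (measurable_pi_apply s)
  have h1 : (fun ω => cost q ω p) = ∑ s ∈ p.edges.toFinset, fun ω : Om e => q.w (ω s) := by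
    funext ω
    rw [cost_eq_sum q ω hp, Finset.sum_apply]
  constructor
  · have h2 := (indep_w (e := e) q F).integrable_exp_mul_sum hm (s := p.edges.toFinset)
      (t := q.β) (fun s _ => (mgf_one q F s).1)
    refine h2.congr (Eventually.of_forall fun ω => ?_)
    have := congrFun h1 ω
    simp only at this ⊢
    rw [← this]
  · rw [h1, (indep_w (e := e) q F).mgf_sum hm]
    calc ∏ s ∈ p.edges.toFinset, mgf (fun ω : Om e => q.w (ω s)) (PM e F) q.β
        ≤ ∏ _s ∈ p.edges.toFinset, Real.exp (q.β * q.b) :=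
          Finset.prod_le_prod (fun s _ => mgf_nonneg) fun s _ => (mgf_one q F s).2
      _ = Real.exp (q.β * (q.b * p.length)) := by
          rw [Finset.prod_const, card_edges hp, ← Real.exp_nat_mul]
          congr 1; ring

/-- exponential tail of the cost of a path -/
theorem tail_cost [MB q F] {x y : V e} {p : (lat e).Walk x y} (hp : p.IsPath) (t : ℝ) :
    PM e F {ω | q.b * p.length + t ≤ cost q ω p} ≤ ENNReal.ofReal (Real.exp (-(q.β * t))) := by
  have h1 := measure_ge_le_exp_mul_mgf (μ := PM e F) (X := fun ω => cost q ω p)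
    (q.b * p.length + t) q.hβ.le (mgf_cost q F hp).1
  have h2 : (PM e F).real {ω | q.b * p.length + t ≤ cost q ω p} ≤ Real.exp (-(q.β * t)) := by
    refine h1.trans ?_
    refine (mul_le_mul_of_nonneg_left (mgf_cost q F hp).2 (Real.exp_nonneg _)).trans ?_
    rw [← Real.exp_add]
    refine Real.exp_le_exp.2 ?_
    nlinarith
  rw [← ofReal_measureReal (measure_ne_top _ _)]
  exact ENNReal.ofReal_le_ofReal h2

lemma sq_one [MB q F] (s : Sym2 (V e)) :
    Integrable (fun ω : Om e => q.w (ω s) ^ 2) (PM e F) ∧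
      ∫ ω : Om e, q.w (ω s) ^ 2 ∂(PM e F) ≤ q.b ^ 2 := by
  have h1 := mp_eval (e := e) F s
  have h2 : Measurable fun t : ℝ => q.w t ^ 2 := q.measurable_w.pow_const 2
  constructor
  · exact (h1.integrable_comp h2.aestronglyMeasurable).2 MB.int_sq
  · have h3 : ∫ ω : Om e, q.w (ω s) ^ 2 ∂(PM e F) = ∫ t, q.w t ^ 2 ∂F := int_eval F s h2
    rw [h3]
    exact MB.sq_le

lemma mean_one [MB q F] (s : Sym2 (V e)) :
    Integrable (fun ω : Om e => q.w (ω s)) (PM e F) ∧
      ∫ ω : Om e, q.w (ω s) ∂(PM e F) ≤ q.b := by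
  have h1 := mp_eval (e := e) F s
  have h2 := q.measurable_w
  constructor
  · exact (h1.integrable_comp h2.aestronglyMeasurable).2 MB.int_w
  · have h3 : ∫ ω : Om e, q.w (ω s) ∂(PM e F) = ∫ t, q.w t ∂F := int_eval F s h2
    rw [h3]
    exact MB.mean_le

/-- mean of the cost of a path -/
theorem mean_cost [MB q F] {x y : V e} {p : (lat e).Walk x y} (hp : p.IsPath) :
    Integrable (fun ω => cost q ω p) (PM e F) ∧ ∫ ω, cost q ω p ∂(PM e F) ≤ q.b * p.length := by
  classical
  simp only [cost_eq_sum q _ hp]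
  constructor
  · exact integrable_finsetSum _ fun s _ => (mean_one q F s).1
  · rw [integral_finsetSum _ fun s _ => (mean_one q F s).1]
    calc ∑ s ∈ p.edges.toFinset, ∫ ω : Om e, q.w (ω s) ∂(PM e F)
        ≤ ∑ _s ∈ p.edges.toFinset, q.b := Finset.sum_le_sum fun s _ => (mean_one q F s).2
      _ = q.b * p.length := by rw [Finset.sum_const, card_edges hp, nsmul_eq_mul]; ring

/-- second moment of the cost of a path -/
theorem sq_cost [MB q F] {x y : V e} {p : (lat e).Walk x y} (hp : p.IsPath) :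
    Integrable (fun ω => cost q ω p ^ 2) (PM e F) ∧
      ∫ ω, cost q ω p ^ 2 ∂(PM e F) ≤ (q.b * p.length) ^ 2 := by
  classical
  have hb : ∀ ω, cost q ω p ^ 2 ≤ p.length * ∑ s ∈ p.edges.toFinset, q.w (ω s) ^ 2 := by
    intro ω
    rw [cost_eq_sum q ω hp, ← card_edges hp]
    exact sq_sum_le_card_mul_sum_sq
  have hi : Integrable (fun ω : Om e => (p.length : ℝ) * ∑ s ∈ p.edges.toFinset, q.w (ω s) ^ 2)
      (PM e F) := (integrable_finsetSum _ fun s _ => (sq_one q F s).1).const_mul _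
  have hint : Integrable (fun ω => cost q ω p ^ 2) (PM e F) := by
    refine hi.mono' ((measurable_cost q p).pow_const 2).aestronglyMeasurable
      (Eventually.of_forall fun ω => ?_)
    rw [Real.norm_eq_abs, abs_of_nonneg (sq_nonneg _)]
    exact hb ω
  refine ⟨hint, (integral_mono hint hi hb).trans ?_⟩
  rw [integral_const_mul, integral_finsetSum _ fun s _ => (sq_one q F s).1]
  calc (p.length : ℝ) * ∑ s ∈ p.edges.toFinset, ∫ ω : Om e, q.w (ω s) ^ 2 ∂(PM e F)
      ≤ p.length * ∑ _s ∈ p.edges.toFinset, q.b ^ 2 :=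
        mul_le_mul_of_nonneg_left (Finset.sum_le_sum fun s _ => (sq_one q F s).2)
          (Nat.cast_nonneg _)
    _ = (q.b * p.length) ^ 2 := by rw [Finset.sum_const, card_edges hp, nsmul_eq_mul]; ring

/-- the mean of a restricted passage time is at most the mean cost of a fixed path -/
theorem lint_X_le [MB q F] {A : Set (Sym2 (V e))} {x y : V e} {Y : Set (V e)} (hy : y ∈ Y)
    {p : (lat e).Walk x y} (hp : p.IsPath) (hu : Uses p A) :
    ∫⁻ ω, X q ω A x Y ∂(PM e F) ≤ ENNReal.ofReal (q.b * p.length) := by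
  calc ∫⁻ ω, X q ω A x Y ∂(PM e F) ≤ ∫⁻ ω, ENNReal.ofReal (cost q ω p) ∂(PM e F) :=
        lintegral_mono fun ω => X_le q ω hy p hu
    _ = ENNReal.ofReal (∫ ω, cost q ω p ∂(PM e F)) := by
        rw [ofReal_integral_eq_lintegral_ofReal (mean_cost q F hp).1
          (Eventually.of_forall fun ω => cost_nonneg q ω p)]
    _ ≤ _ := ENNReal.ofReal_le_ofReal (mean_cost q F hp).2

/-- the second moment of a restricted passage time -/
theorem lint_X_sq_le [MB q F] {A : Set (Sym2 (V e))} {x y : V e} {Y : Set (V e)} (hy : y ∈ Y)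
    {p : (lat e).Walk x y} (hp : p.IsPath) (hu : Uses p A) :
    ∫⁻ ω, X q ω A x Y ^ 2 ∂(PM e F) ≤ ENNReal.ofReal ((q.b * p.length) ^ 2) := by
  calc ∫⁻ ω, X q ω A x Y ^ 2 ∂(PM e F) ≤ ∫⁻ ω, ENNReal.ofReal (cost q ω p ^ 2) ∂(PM e F) := by
        refine lintegral_mono fun ω => ?_
        rw [ENNReal.ofReal_pow (cost_nonneg q ω p)]
        gcongr
        exact X_le q ω hy p hu
    _ = ENNReal.ofReal (∫ ω, cost q ω p ^ 2 ∂(PM e F)) := by
        rw [ofReal_integral_eq_lintegral_ofReal (sq_cost q F hp).1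
          (Eventually.of_forall fun ω => sq_nonneg _)]
    _ ≤ _ := ENNReal.ofReal_le_ofReal (sq_cost q F hp).2

/-- Cauchy-Schwarz: the mean of the cost of a path on a rare event -/
theorem lint_on_le [MB q F] {x y : V e} {p : (lat e).Walk x y} (hp : p.IsPath) {W : Set (Om e)}
    (hW : MeasurableSet W) {ρ : ℝ} (hρ : 0 ≤ ρ) (hP : PM e F W ≤ ENNReal.ofReal (ρ ^ 2)) :
    ∫⁻ ω in W, ENNReal.ofReal (cost q ω p) ∂(PM e F) ≤ ENNReal.ofReal (q.b * p.length * ρ) := by
  have h0 : 0 ≤ q.b * p.length := mul_nonneg q.hb.le (Nat.cast_nonneg _)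
  have h1 : ∫⁻ ω in W, ENNReal.ofReal (cost q ω p) ∂(PM e F) =
      ∫⁻ ω, ((fun ω : Om e => ENNReal.ofReal (cost q ω p)) *
        (W.indicator (1 : Om e → ℝ≥0∞))) ω ∂(PM e F) := by
    rw [← lintegral_indicator hW]
    refine lintegral_congr fun ω => ?_
    by_cases h : ω ∈ W <;> simp [h]
  rw [h1]
  refine (ENNReal.lintegral_mul_le_Lp_mul_Lq (PM e F) Real.HolderConjugate.two_two
    (measurable_cost q p).ennreal_ofReal.aemeasurable
    (measurable_one.indicator hW).aemeasurable).trans ?_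
  have h2 : ∫⁻ ω, ENNReal.ofReal (cost q ω p) ^ (2 : ℝ) ∂(PM e F) ≤
      ENNReal.ofReal (q.b * p.length) ^ (2 : ℝ) := by
    calc ∫⁻ ω, ENNReal.ofReal (cost q ω p) ^ (2 : ℝ) ∂(PM e F)
        = ∫⁻ ω, ENNReal.ofReal (cost q ω p ^ 2) ∂(PM e F) := by
          refine lintegral_congr fun ω => ?_
          rw [ENNReal.ofReal_pow (cost_nonneg q ω p)]
          norm_cast
      _ = ENNReal.ofReal (∫ ω, cost q ω p ^ 2 ∂(PM e F)) := by
          rw [ofReal_integral_eq_lintegral_ofReal (sq_cost q F hp).1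
            (Eventually.of_forall fun ω => sq_nonneg _)]
      _ ≤ ENNReal.ofReal ((q.b * p.length) ^ 2) := ENNReal.ofReal_le_ofReal (sq_cost q F hp).2
      _ = _ := by rw [ENNReal.ofReal_pow h0]; norm_cast
  have h3 : ∫⁻ ω, W.indicator (1 : Om e → ℝ≥0∞) ω ^ (2 : ℝ) ∂(PM e F) ≤
      ENNReal.ofReal ρ ^ (2 : ℝ) := by
    calc ∫⁻ ω, W.indicator (1 : Om e → ℝ≥0∞) ω ^ (2 : ℝ) ∂(PM e F)
        = ∫⁻ ω, W.indicator (1 : Om e → ℝ≥0∞) ω ∂(PM e F) := by
          refine lintegral_congr fun ω => ?_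
          by_cases h : ω ∈ W <;> simp [h]
      _ = PM e F W := by rw [lintegral_indicator_one hW]
      _ ≤ ENNReal.ofReal (ρ ^ 2) := hP
      _ = _ := by rw [ENNReal.ofReal_pow hρ]; norm_cast
  rw [ENNReal.ofReal_mul h0]
  refine mul_le_mul' ?_ ?_
  · calc (∫⁻ ω, ENNReal.ofReal (cost q ω p) ^ (2 : ℝ) ∂(PM e F)) ^ (1 / (2 : ℝ))
        ≤ (ENNReal.ofReal (q.b * p.length) ^ (2 : ℝ)) ^ (1 / (2 : ℝ)) :=
          ENNReal.rpow_le_rpow h2 (by norm_num)
      _ = _ := by rw [← ENNReal.rpow_mul]; norm_num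
  · calc (∫⁻ ω, W.indicator (1 : Om e → ℝ≥0∞) ω ^ (2 : ℝ) ∂(PM e F)) ^ (1 / (2 : ℝ))
        ≤ (ENNReal.ofReal ρ ^ (2 : ℝ)) ^ (1 / (2 : ℝ)) :=
          ENNReal.rpow_le_rpow h3 (by norm_num)
      _ = _ := by rw [← ENNReal.rpow_mul]; norm_num

/-! ### means of passage times -/

theorem int_T [MB q F] (x y : V e) : Integrable (fun ω => T q ω x y) (PM e F) := by
  obtain ⟨p, hp, -⟩ := exists_path_len x y
  refine (mean_cost q F hp).1.mono' (measurable_T q x y).aestronglyMeasurable
    (Eventually.of_forall fun ω => ?_)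
  rw [Real.norm_eq_abs, abs_of_nonneg (T_nonneg q ω x y)]
  exact T_le q ω p

/-- mean passage time -/
theorem mean_T_le [MB q F] (x y : V e) : ∫ ω, T q ω x y ∂(PM e F) ≤ q.b * n1 (y - x) := by
  obtain ⟨p, hp, hl⟩ := exists_path_len x y
  have h1 : (p.length : ℝ) = (n1 (y - x) : ℝ) := by exact_mod_cast hl
  rw [← h1]
  exact (integral_mono (int_T q F x y) (mean_cost q F hp).1 fun ω => T_le q ω p).trans
    (mean_cost q F hp).2

/-- exponential tail of the passage time -/
theorem tail_T [MB q F] (x y : V e) (t : ℝ) :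
    PM e F {ω | q.b * n1 (y - x) + t ≤ T q ω x y} ≤ ENNReal.ofReal (Real.exp (-(q.β * t))) := by
  obtain ⟨p, hp, hl⟩ := exists_path_len x y
  have h1 : (p.length : ℝ) = (n1 (y - x) : ℝ) := by exact_mod_cast hl
  refine (measure_mono ?_).trans (tail_cost q F hp t)
  intro ω hω
  have h2 : q.b * n1 (y - x) + t ≤ T q ω x y := hω
  rw [← h1] at h2
  exact h2.trans (T_le q ω p)

theorem int_T_sq [MB q F] (x y : V e) : Integrable (fun ω => T q ω x y ^ 2) (PM e F) := by
  obtain ⟨p, hp, -⟩ := exists_path_len x y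
  refine (sq_cost q F hp).1.mono' ((measurable_T q x y).pow_const 2).aestronglyMeasurable
    (Eventually.of_forall fun ω => ?_)
  rw [Real.norm_eq_abs, abs_of_nonneg (sq_nonneg _)]
  exact pow_le_pow_left₀ (T_nonneg q ω x y) (T_le q ω p) 2

theorem memLp_T [MB q F] (x y : V e) : MemLp (fun ω => T q ω x y) 2 (PM e F) :=
  (memLp_two_iff_integrable_sq (measurable_T q x y).aestronglyMeasurable).2 (int_T_sq q F x y)

lemma T_self (ω : Om e) (x : V e) : T q ω x x = 0 := by
  refine le_antisymm ?_ (T_nonneg q ω x x)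
  have h := T_le q ω (SimpleGraph.Walk.nil : (lat e).Walk x x)
  rwa [cost_nil] at h

theorem g_nonneg (x : V e) : 0 ≤ g q F x := integral_nonneg fun ω => T_nonneg q ω 0 x

theorem g_le [MB q F] (x : V e) : g q F x ≤ q.b * n1 x := by
  have := mean_T_le q F (0 : V e) x
  rwa [sub_zero] at this

theorem g_zero : g q F (0 : V e) = 0 := by
  unfold g
  simp [T_self]

/-- translation invariance of the mean passage time -/
theorem mean_T (x y : V e) : ∫ ω, T q ω x y ∂(PM e F) = g q F (y - x) := by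
  have hm := act_mp (e := e) F (tr x)
  have h1 : ∀ ω : Om e, T q (act (tr x) ω) 0 (y - x) = T q ω x y := by
    intro ω
    rw [T_act]
    simp
  unfold g
  calc ∫ ω, T q ω x y ∂(PM e F) = ∫ ω, T q (act (tr x) ω) 0 (y - x) ∂(PM e F) := by
        simp only [h1]
    _ = ∫ ω, T q ω 0 (y - x) ∂(Measure.map (act (tr x)) (PM e F)) := by
        rw [integral_map hm.measurable.aemeasurable]
        exact (measurable_T q 0 (y - x)).aestronglyMeasurable
    _ = _ := by rw [hm.map_eq]

theorem g_add_le [MB q F] (x y : V e) : g q F (x + y) ≤ g q F x + g q F y := by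
  have h1 := mean_T q F x (x + y)
  rw [add_sub_cancel_left] at h1
  rw [← h1]
  unfold g
  rw [← integral_add (int_T q F 0 x) (int_T q F x (x + y))]
  exact integral_mono (int_T q F 0 (x + y)) ((int_T q F 0 x).add (int_T q F x (x + y)))
    fun ω => T_tri q ω 0 x (x + y)

theorem g_neg (x : V e) : g q F (-x) = g q F x := by
  have h1 := mean_T q F x 0
  have h2 : ∫ ω, T q ω x 0 ∂(PM e F) = ∫ ω, T q ω 0 x ∂(PM e F) := by
    congr 1
    funext ω
    exact T_symm q ω x 0
  rw [zero_sub] at h1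
  rw [← h1, h2]
  rfl

theorem g_sub_le [MB q F] (x y : V e) : g q F x ≤ g q F y + q.b * n1 (x - y) := by
  have h1 := g_add_le q F y (x - y)
  rw [add_sub_cancel] at h1
  have h2 := g_le q F (x - y)
  linarith

theorem g_lip [MB q F] (x y : V e) : |g q F x - g q F y| ≤ q.b * n1 (x - y) := by
  rw [abs_le]
  have h1 := g_sub_le q F x y
  have h2 := g_sub_le q F y x
  rw [n1_sub_comm y x] at h2
  constructor <;> linarith

end Pool.Agent.J6H99.NX
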