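import Pool.Agent.J6H99.NX.Walks

/-!
# First-passage percolation: slabs of a linear functional, subadditivity
-/

set_option autoImplicit false

open MeasureTheory ProbabilityTheory Filter Topology
open scoped ENNReal

namespace Pool.Agent.J6H99.NX

variable {e : ℕ}

/-- a path along a sequence of neighbours -/
lemma steps_path (p : ℕ → V e) (n : ℕ) (h : ∀ j, j < n → (lat e).Adj (p j) (p (j + 1))) :
    ∃ P : (lat e).Walk (p 0) (p n), P.IsPath ∧ P.length ≤ n ∧
      ∀ s ∈ P.edges, ∃ j, j < n ∧ s = s(p j, p (j + 1)) := by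
  classical
  have h0 : ∃ P : (lat e).Walk (p 0) (p n), P.length ≤ n ∧
      ∀ s ∈ P.edges, ∃ j, j < n ∧ s = s(p j, p (j + 1)) := by
    clear * - h
    induction n with
    | zero => exact ⟨SimpleGraph.Walk.nil, by simp, by simp⟩
    | succ n ih =>
      obtain ⟨P, h1, h2⟩ := ih fun j hj => h j (by omega)
      refine ⟨P.append (SimpleGraph.Walk.cons (h n (by omega)) SimpleGraph.Walk.nil), ?_, ?_⟩
      · rw [SimpleGraph.Walk.length_append, SimpleGraph.Walk.length_cons,
          SimpleGraph.Walk.length_nil]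
        omega
      · intro s hs
        rw [SimpleGraph.Walk.edges_append, List.mem_append] at hs
        rcases hs with hs | hs
        · obtain ⟨j, hj, hs⟩ := h2 s hs
          exact ⟨j, by omega, hs⟩
        · rw [SimpleGraph.Walk.edges_cons, SimpleGraph.Walk.edges_nil, List.mem_singleton] at hs
          exact ⟨n, by omega, hs⟩
  obtain ⟨P, h1, h2⟩ := h0
  refine ⟨P.bypass, P.bypass_isPath, P.length_bypass_le_length.trans h1, fun s hs => ?_⟩
  exact h2 s (P.edges_bypass_subset_edges hs)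

lemma lf_u (c : E e) (i : Fin (e + 2)) : lf c (u i) = c i := by
  unfold lf dt vc u
  rw [Finset.sum_eq_single i]
  · simp
  · intro j _ hj; simp [Pi.single_eq_of_ne hj]
  · simp

/-- a unit step that increases the functional -/
lemma exists_dir {c : E e} (hc : c ≠ 0) : ∃ w : V e, n1 w = 1 ∧ 0 < lf c w := by
  obtain ⟨i, hi⟩ : ∃ i, c i ≠ 0 := by
    by_contra h
    push Not at h
    exact hc (funext h)
  rcases lt_or_gt_of_ne hi with h | h
  · exact ⟨-(u i), by rw [n1_neg, n1_u], by rw [lf_neg, lf_u]; linarith⟩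
  · exact ⟨u i, n1_u i, by rw [lf_u]; exact h⟩

lemma adj_step {w : V e} (hw : n1 w = 1) (j : ℕ) :
    (lat e).Adj ((j : ℤ) • w) (((j + 1 : ℕ) : ℤ) • w) := by
  show n1 ((j : ℤ) • w - ((j + 1 : ℕ) : ℤ) • w) = 1
  rw [← sub_smul]
  have : ((j : ℤ) - ((j + 1 : ℕ) : ℤ)) = -1 := by push_cast; ring
  rw [this, neg_one_smul, n1_neg, hw]

/-- a short path to a half-space -/
lemma path_HS {c : E e} {w : V e} (hw : n1 w = 1) (ha : 0 < lf c w) (R : ℝ) :
    ((⌈R / lf c w⌉₊ : ℕ) : ℤ) • w ∈ HS c R ∧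
    ∃ P : (lat e).Walk 0 (((⌈R / lf c w⌉₊ : ℕ) : ℤ) • w), P.IsPath ∧
      P.length ≤ ⌈R / lf c w⌉₊ ∧ Uses P (Slab c 0 R) := by
  constructor
  · show R ≤ lf c _
    rw [lf_smul]
    have := Nat.le_ceil (R / lf c w)
    rw [div_le_iff₀ ha] at this
    push_cast
    exact this
  · obtain ⟨P, h1, h2, h3⟩ := steps_path (fun j : ℕ => (j : ℤ) • w) ⌈R / lf c w⌉₊
      (fun j _ => adj_step hw j)
    have h4 : ∀ s ∈ P.edges, s ∈ Slab c 0 R := by
      intro s hs
      obtain ⟨j, hj, rfl⟩ := h3 s hs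
      have h2 : (j : ℝ) < R / lf c w := Nat.lt_ceil.1 hj
      rw [lt_div_iff₀ ha] at h2
      refine ⟨?_, (j : ℤ) • w, by simp, ?_⟩
      · intro v hv
        rw [Sym2.mem_iff] at hv
        rcases hv with rfl | rfl
        · show 0 ≤ lf c _
          rw [lf_smul]
          have : (0 : ℝ) ≤ j := Nat.cast_nonneg j
          push_cast
          positivity
        · show 0 ≤ lf c _
          rw [lf_smul]
          push_cast
          positivity
      · rw [lf_smul]
        push_cast
        exact h2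
    have h5 : ((0 : ℕ) : ℤ) • w = 0 := by simp
    refine ⟨P.copy h5 rfl, ?_, ?_, ?_⟩
    · rw [SimpleGraph.Walk.isPath_copy]; exact h1
    · rw [SimpleGraph.Walk.length_copy]; exact h2
    · intro s hs
      rw [SimpleGraph.Walk.edges_copy] at hs
      exact h4 s hs

lemma X_HS_lt (q : Par) (ω : Om e) {c : E e} {w : V e} (hw : n1 w = 1) (ha : 0 < lf c w)
    (R : ℝ) : X q ω (Slab c 0 R) 0 (HS c R) < ∞ := by
  obtain ⟨h1, P, -, -, h2⟩ := path_HS hw ha R
  exact (X_le q ω h1 P h2).trans_lt ENNReal.ofReal_lt_top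

lemma Pp_le' (q : Par) (F : Measure ℝ) [IsProbabilityMeasure F] [MB q F] {c : E e} {w : V e}
    (hw : n1 w = 1) (ha : 0 < lf c w) (R : ℝ) :
    Pp e q F c R ≤ ENNReal.ofReal (q.b * (⌈R / lf c w⌉₊ : ℝ)) := by
  obtain ⟨h1, P, h3, h4, h2⟩ := path_HS hw ha R
  refine (lint_X_le q F h1 h3 h2).trans (ENNReal.ofReal_le_ofReal ?_)
  exact mul_le_mul_of_nonneg_left (by exact_mod_cast h4) q.hb.le

lemma Pp_ne_top (q : Par) (F : Measure ℝ) [IsProbabilityMeasure F] [MB q F] {c : E e}
    (hc : c ≠ 0) (R : ℝ) : Pp e q F c R ≠ ∞ := by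
  obtain ⟨w, hw, ha⟩ := exists_dir hc
  exact ((Pp_le' q F hw ha R).trans_lt ENNReal.ofReal_lt_top).ne

/-- local boundedness -/
lemma Pp_bdd (q : Par) (F : Measure ℝ) [IsProbabilityMeasure F] [MB q F] {c : E e} (hc : c ≠ 0) :
    ∃ C : ℝ, 0 < C ∧ ∀ R : ℝ, 0 ≤ R → (Pp e q F c R).toReal ≤ C * (R + 1) := by
  obtain ⟨w, hw, ha⟩ := exists_dir hc
  refine ⟨q.b * (1 / lf c w + 1), by have := q.hb; positivity, fun R hR => ?_⟩
  have h1 := Pp_le' q F hw ha R
  have h2 : (Pp e q F c R).toReal ≤ q.b * (⌈R / lf c w⌉₊ : ℝ) := by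
    have := ENNReal.toReal_mono ENNReal.ofReal_ne_top h1
    rwa [ENNReal.toReal_ofReal (mul_nonneg q.hb.le (Nat.cast_nonneg _))] at this
  refine h2.trans ?_
  rw [mul_assoc]
  refine mul_le_mul_of_nonneg_left ?_ q.hb.le
  have h3 := Nat.ceil_lt_add_one (show 0 ≤ R / lf c w by positivity)
  have h4 : R / lf c w + 1 ≤ (1 / lf c w + 1) * (R + 1) := by
    have h5 : 0 ≤ 1 / lf c w := by positivity
    have h6 : R / lf c w = 1 / lf c w * R := by ring
    rw [h6]
    nlinarith
  linarith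

/-- the part of a walk up to the first visit of a set -/
lemma first_hit (q : Par) (ω : Om e) (Y : Set (V e)) {x y : V e} (p : (lat e).Walk x y)
    (hy : y ∈ Y) : ∃ z ∈ Y, ∃ p' : (lat e).Walk x z, cost q ω p' ≤ cost q ω p ∧
      ∀ s ∈ p'.edges, s ∈ p.edges ∧ ∃ v ∈ s, v ∉ Y := by
  classical
  induction p with
  | nil => exact ⟨_, hy, SimpleGraph.Walk.nil, le_rfl, by simp⟩
  | @cons x x' y h p ih =>
    by_cases hx : x ∈ Y
    · exact ⟨x, hx, SimpleGraph.Walk.nil, by rw [cost_nil]; exact cost_nonneg q ω _, by simp⟩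
    · obtain ⟨z, hz, p', h1, h2⟩ := ih hy
      refine ⟨z, hz, SimpleGraph.Walk.cons h p', ?_, ?_⟩
      · rw [cost_cons, cost_cons]; linarith
      · intro s hs
        rw [SimpleGraph.Walk.edges_cons, List.mem_cons] at hs
        rw [SimpleGraph.Walk.edges_cons, List.mem_cons]
        rcases hs with rfl | hs
        · exact ⟨Or.inl rfl, x, by simp, hx⟩
        · exact ⟨Or.inr (h2 s hs).1, (h2 s hs).2⟩

lemma X_HS_mono (q : Par) (ω : Om e) (c : E e) (A : ℝ) (x : V e) {R R' : ℝ} (h : R ≤ R') :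
    X q ω (Slab c A R) x (HS c R) ≤ X q ω (Slab c A R') x (HS c R') := by
  conv_rhs => unfold X
  refine le_iInf₂ fun y hy => le_iInf₂ fun p hp => ?_
  obtain ⟨z, hz, p', h1, h2⟩ := first_hit q ω (HS c R) p (HS_mono c h hy)
  refine (X_le q ω hz p' fun s hs => ?_).trans (ENNReal.ofReal_le_ofReal h1)
  obtain ⟨h3, v, hv, h4⟩ := h2 s hs
  exact ⟨(hp s h3).1, v, hv, not_le.1 h4⟩

lemma Pp_mono (q : Par) (F : Measure ℝ) [IsProbabilityMeasure F] (c : E e) {R R' : ℝ}
    (h : R ≤ R') : Pp e q F c R ≤ Pp e q F c R' :=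
  lintegral_mono fun ω => X_HS_mono q ω c 0 0 h

/-- composition: on the event `W i` continue from `y i` with fresh edges -/
theorem comp_gen (q : Par) (F : Measure ℝ) [IsProbabilityMeasure F] (c : E e) (R : ℝ) {I : Type*}
    [Countable I] (W : I → Set (Om e)) (y : I → V e) (A : I → Set (Sym2 (V e)))
    (hA : ∀ i, Disjoint (A i) (Slab c (lf c (y i)) R))
    (hW : ∀ i, MeasurableSet[MS (A i)] (W i)) (hd : Pairwise (Function.onFun Disjoint W))
    (hU : ⋃ i, W i = Set.univ) (f : I → Om e → ℝ≥0∞) (hf : ∀ i, Measurable (f i))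
    (h : ∀ i, ∀ ω ∈ W i, X q ω (Slab c 0 R) 0 (HS c R) ≤
      f i ω + X q ω (Slab c (lf c (y i)) R) (y i) (HS c R)) :
    Pp e q F c R ≤ ∑' i, ∫⁻ ω in W i, f i ω ∂(PM e F) +
      ∑' i, PM e F (W i) * Pp e q F c (R - lf c (y i)) := by
  have hWm : ∀ i, MeasurableSet (W i) := fun i => MS_le _ _ (hW i)
  have h1 : Pp e q F c R = ∑' i, ∫⁻ ω in W i, X q ω (Slab c 0 R) 0 (HS c R) ∂(PM e F) := by
    rw [← lintegral_iUnion hWm hd, hU, Measure.restrict_univ]
    rfl
  have h2 : ∀ i, ∫⁻ ω in W i, X q ω (Slab c 0 R) 0 (HS c R) ∂(PM e F) ≤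
      ∫⁻ ω in W i, f i ω ∂(PM e F) + PM e F (W i) * Pp e q F c (R - lf c (y i)) := by
    intro i
    calc ∫⁻ ω in W i, X q ω (Slab c 0 R) 0 (HS c R) ∂(PM e F)
        ≤ ∫⁻ ω in W i, (f i ω + X q ω (Slab c (lf c (y i)) R) (y i) (HS c R)) ∂(PM e F) :=
          setLIntegral_mono ((hf i).add (X_meas q _ _ _)) fun ω hω => h i ω hω
      _ = ∫⁻ ω in W i, f i ω ∂(PM e F) +
          ∫⁻ ω in W i, X q ω (Slab c (lf c (y i)) R) (y i) (HS c R) ∂(PM e F) :=
          lintegral_add_left (hf i) _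
      _ = _ := by rw [fresh q F c (y i) R (hA i) (hW i)]
  rw [h1, ← ENNReal.tsum_add]
  exact ENNReal.tsum_le_tsum h2

theorem Pp_add (q : Par) (F : Measure ℝ) [IsProbabilityMeasure F] {c : E e} (hc : c ≠ 0)
    (R R' : ℝ) (hR' : 0 ≤ R') : Pp e q F c (R + R') ≤ Pp e q F c R + Pp e q F c R' := by
  classical
  refine ENNReal.le_of_forall_pos_le_add fun δ hδ _ => ?_
  have hδ0 : (δ : ℝ≥0∞) ≠ 0 := by exact_mod_cast hδ.ne'
  obtain ⟨w, hw, ha⟩ := exists_dir hc
  -- enumeration of the points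
  obtain ⟨ν, hν⟩ := exists_surjective_nat (V e)
  set B : ℕ → Set (Om e) := fun n => {ω | ν n ∈ HS c R ∧
    X q ω (Slab c 0 R) 0 {ν n} ≤ X q ω (Slab c 0 R) 0 (HS c R) + δ} with hB
  have hBm : ∀ n, MeasurableSet[MS (Slab c 0 R)] (B n) := by
    intro n
    by_cases hn : ν n ∈ HS c R
    · have : B n = {ω | X q ω (Slab c 0 R) 0 {ν n} ≤ X q ω (Slab c 0 R) 0 (HS c R) + δ} := by
        ext ω; simp [hB, hn]
      rw [this]
      exact measurableSet_le (mδ := MS (Slab c 0 R))
        (X_meas_MS q subset_rfl _ _) ((X_meas_MS q subset_rfl _ _).add_const _)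
    · have : B n = ∅ := by ext ω; simp [hB, hn]
      rw [this]; exact @MeasurableSet.empty _ (MS _)
  have hBU : ⋃ n, B n = Set.univ := by
    refine Set.eq_univ_of_forall fun ω => ?_
    have hfin : X q ω (Slab c 0 R) 0 (HS c R) ≠ ∞ :=
      (X_HS_lt q ω hw ha R).ne
    have hlt : X q ω (Slab c 0 R) 0 (HS c R) < X q ω (Slab c 0 R) 0 (HS c R) + δ :=
      ENNReal.lt_add_right hfin hδ0
    have hlt' := hlt
    conv_lhs at hlt' => unfold X
    obtain ⟨z, hz⟩ := iInf_lt_iff.1 hlt'
    obtain ⟨hz1, hz2⟩ := iInf_lt_iff.1 hz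
    obtain ⟨n, hn⟩ := hν z
    refine Set.mem_iUnion.2 ⟨n, ?_⟩
    refine ⟨by rw [hn]; exact hz1, ?_⟩
    rw [hn]
    refine le_trans ?_ hz2.le
    unfold X
    simp only [Set.mem_singleton_iff, iInf_iInf_eq_left]
    exact le_rfl
  have hdis : ∀ n, MeasurableSet[MS (Slab c 0 R)] (disjointed B n) := by
    intro n
    exact MeasurableSet.disjointed (mα := MS (Slab c 0 R)) (fun i => hBm i) n
  have hsubB : ∀ n, disjointed B n ⊆ B n := fun n => disjointed_le B n
  -- the point for each index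
  set y : ℕ → V e := fun n => if ν n ∈ HS c R then ν n else
    ((⌈R / lf c w⌉₊ : ℕ) : ℤ) • w with hydef
  have hy : ∀ n, R ≤ lf c (y n) := by
    intro n
    simp only [hydef]
    split_ifs with hn
    · exact hn
    · rw [lf_smul]
      have := Nat.le_ceil (R / lf c w)
      rw [div_le_iff₀ ha] at this
      push_cast
      exact this
  have key := comp_gen q F c (R + R') (disjointed B) y (fun _ => Slab c 0 R)
    (fun n => Slab_disjoint c 0 (hy n)) hdis (disjoint_disjointed B)
    (by rw [iUnion_disjointed, hBU])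
    (fun _ ω => X q ω (Slab c 0 R) 0 (HS c R) + δ) (fun _ => (X_meas q _ _ _).add_const _)
    (fun n ω hω => by
      have h1 := hsubB n hω
      have hyn : y n = ν n := by simp only [hydef]; rw [if_pos h1.1]
      rw [hyn]
      have h1' : R ≤ lf c (ν n) := h1.1
      have h2 : Slab c 0 R ⊆ Slab c 0 (R + R') := Slab_mono c le_rfl (by linarith)
      by_cases h5 : ν n ∈ HS c (R + R')
      · calc X q ω (Slab c 0 (R + R')) 0 (HS c (R + R'))
            ≤ X q ω (Slab c 0 (R + R')) 0 {ν n} :=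
              X_anti q ω _ _ (Set.singleton_subset_iff.2 h5)
          _ ≤ X q ω (Slab c 0 R) 0 (HS c R) + δ := (X_mono q ω h2 _ _).trans h1.2
          _ ≤ _ := le_self_add
      · by_cases h6 : 0 ≤ lf c (ν n)
        · have h3 : Slab c (lf c (ν n)) (R + R') ⊆ Slab c 0 (R + R') :=
            Slab_mono c h6 le_rfl
          calc X q ω (Slab c 0 (R + R')) 0 (HS c (R + R'))
              ≤ X q ω (Slab c 0 (R + R')) 0 {ν n} +
                X q ω (Slab c 0 (R + R')) (ν n) (HS c (R + R')) := X_trans q ω _ _ _ _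
            _ ≤ _ := add_le_add ((X_mono q ω h2 _ _).trans h1.2) (X_mono q ω h3 _ _)
        · -- the point cannot be reached in the slab
          exfalso
          have h7 : X q ω (Slab c 0 R) 0 {ν n} = ∞ := by
            unfold X
            simp only [Set.mem_singleton_iff, iInf_iInf_eq_left]
            rw [iInf_eq_top]
            intro p
            rw [iInf_eq_top]
            intro hp
            exfalso
            have h8 : ∀ {x z : V e} (p' : (lat e).Walk x z), Uses p' (Slab c 0 R) →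
                0 ≤ lf c x → 0 ≤ lf c z := by
              intro x z p'
              induction p' with
              | nil => intro _ h; exact h
              | @cons a b c' hab p' ih =>
                intro hu ha'
                refine ih (fun s hs => hu s (by
                  rw [SimpleGraph.Walk.edges_cons]; exact List.mem_cons_of_mem _ hs)) ?_
                have := hu s(a, b) (by
                  rw [SimpleGraph.Walk.edges_cons]; exact List.mem_cons_self ..)
                exact this.1 b (by simp)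
            exact h6 (h8 p hp (by simp))
          have h8 := h1.2
          rw [h7] at h8
          have h9 := (ENNReal.add_lt_top.2 ⟨X_HS_lt q ω hw ha R, ENNReal.coe_lt_top (r := δ)⟩)
          exact absurd h8 (not_le.2 h9))
  have h4 : ∑' n, PM e F (disjointed B n) = 1 := by
    rw [← measure_iUnion (μ := PM e F) (disjoint_disjointed B) (fun n => MS_le _ _ (hdis n)),
      iUnion_disjointed, hBU, measure_univ]
  have h5 : ∀ n, PM e F (disjointed B n) * Pp e q F c (R + R' - lf c (y n)) ≤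
      PM e F (disjointed B n) * Pp e q F c R' := fun n =>
    mul_le_mul_right (Pp_mono q F c (by have := hy n; linarith)) _
  calc Pp e q F c (R + R') ≤ _ := key
    _ ≤ ∫⁻ ω, (X q ω (Slab c 0 R) 0 (HS c R) + δ) ∂(PM e F) +
        ∑' n, PM e F (disjointed B n) * Pp e q F c R' := by
        refine add_le_add (le_of_eq ?_) (ENNReal.tsum_le_tsum h5)
        rw [← lintegral_iUnion (fun n => MS_le _ _ (hdis n)) (disjoint_disjointed B),
          iUnion_disjointed, hBU, Measure.restrict_univ]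
    _ = Pp e q F c R + R'.toNNReal * 0 + δ + Pp e q F c R' := by
        rw [ENNReal.tsum_mul_right, h4, one_mul, lintegral_add_right _ measurable_const,
          lintegral_const, measure_univ, mul_one, mul_zero, add_zero]
        rfl
    _ = _ := by rw [mul_zero, add_zero]; ring

theorem Pp_mul (q : Par) (F : Measure ℝ) [IsProbabilityMeasure F] [MB q F] {c : E e}
    (hc : c ≠ 0) {R : ℝ} (hR : 0 ≤ R) (n : ℕ) : Pp e q F c (n * R) ≤ n * Pp e q F c R := by
  induction n with
  | zero =>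
    simp only [Nat.cast_zero, zero_mul, nonpos_iff_eq_zero]
    obtain ⟨w, hw, ha⟩ := exists_dir hc
    have := Pp_le' q F hw ha 0
    simpa using this
  | succ n ih =>
    calc Pp e q F c (((n + 1 : ℕ) : ℝ) * R) = Pp e q F c (n * R + R) := by
          congr 1; push_cast; ring
      _ ≤ Pp e q F c (n * R) + Pp e q F c R := Pp_add q F hc _ _ hR
      _ ≤ n * Pp e q F c R + Pp e q F c R := by gcongr
      _ = _ := by push_cast; ring

end Pool.Agent.J6H99.NX
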