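import Pool.Agent.J6H99.NX.Stm2

/-!
# No corners of the limit shape: separation of the tubes, independent trials
-/

set_option autoImplicit false

open MeasureTheory ProbabilityTheory Filter Topology
open scoped ENNReal

namespace Pool.Agent.J6H99.NX

variable {e : ℕ}

/-- the coefficients of a short vector `a v + b u` are small -/
theorem line_sep (c v u : E e) (hcv : dt c v = 1) (hcu : dt c u = 0) {a b r : ℝ}
    (h : nr (a • v + b • u) ≤ r) : |b| * nr u ≤ r * (1 + nr c * nr v) := by
  have h1 : dt c (a • v + b • u) = a := by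
    rw [dt_add, dt_smul, dt_smul, hcv, hcu]; ring
  have h2 : |a| ≤ nr c * r := by
    have := abs_dt_le c (a • v + b • u)
    rw [h1] at this
    exact this.trans (mul_le_mul_of_nonneg_left h (nr_nonneg c))
  have h3 : nr (b • u) ≤ nr (a • v + b • u) + nr (a • v) := by
    have := nr_sub_le (a • v + b • u) (a • v)
    rwa [add_sub_cancel_left] at this
  rw [nr_smul, nr_smul] at h3
  have h4 : |a| * nr v ≤ nr c * r * nr v := mul_le_mul_of_nonneg_right h2 (nr_nonneg v)
  nlinarith

variable {q : Par} {F : Measure ℝ} [IsProbabilityMeasure F] {ι : Type} [Fintype ι]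

/-- a point of a translated tube is close to the translated line -/
lemma tube_line (D : Cor e q F ι) {l W : ℝ} {z x : V e} (h : x - z ∈ Tube D l W) :
    nr (vc x - vc z - lf D.chi (x - z) • D.v) ≤ W / D.c0 := by
  have h1 : nr (vc (x - z) - dt D.chi (vc (x - z)) • D.v) ≤ W / D.c0 :=
    D.near_line (y := vc (x - z)) fun i => h.2.2 i
  rw [show lf D.chi (x - z) = dt D.chi (vc (x - z)) from rfl, ← vc_sub]
  exact h1

theorem tube_sep (D : Cor e q F ι) (i : ι) {l W r t t1 A : ℝ} (z z1 x : V e)
    (hz : nr (vc z - A • D.v - t • D.u i) ≤ r) (hz1 : nr (vc z1 - A • D.v - t1 • D.u i) ≤ r)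
    (ht : (2 * (W / D.c0) + 2 * r) * (1 + nr (D.f i) * nr D.v) < |t - t1| * nr (D.u i))
    (h : x - z ∈ Tube D l W) (h1 : x - z1 ∈ Tube D l W) : False := by
  have e1 := tube_line D h
  have e2 := tube_line D h1
  set a := lf D.chi (x - z)
  set a1 := lf D.chi (x - z1)
  have key : nr ((a1 - a) • D.v + (t1 - t) • D.u i) ≤ 2 * (W / D.c0) + 2 * r := by
    have e3 : (a1 - a) • D.v + (t1 - t) • D.u i =
        ((vc x - vc z - a • D.v) + (vc z - A • D.v - t • D.u i)) -
        ((vc x - vc z1 - a1 • D.v) + (vc z1 - A • D.v - t1 • D.u i)) := by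
      module
    rw [e3]
    refine (nr_sub_le _ _).trans ?_
    have := nr_add_le (vc x - vc z - a • D.v) (vc z - A • D.v - t • D.u i)
    have := nr_add_le (vc x - vc z1 - a1 • D.v) (vc z1 - A • D.v - t1 • D.u i)
    linarith
  have := line_sep (D.f i) D.v (D.u i) (D.fv i) (D.fu i) key
  rw [abs_sub_comm] at this
  linarith

theorem strip_sep (D : Cor e q F ι) (i : ι) {l W r C t A : ℝ} (z z1 x : V e)
    (hz : nr (vc z - A • D.v - t • D.u i) ≤ r) (hz1 : nr (vc z1 - A • D.v) ≤ r) (ht0 : 0 ≤ t)
    (ht : (W / D.c0 + 2 * r + C) * (1 + nr (D.f i) * nr D.v) < t * nr (D.u i))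
    (h : x - z ∈ Tube D l W) (h1 : x - z1 ∈ Strip D.v (-D.u i) l C) : False := by
  have e1 := tube_line D h
  set a := lf D.chi (x - z)
  obtain ⟨s, t1, hs0, hsl, ht1, e2⟩ := h1
  rw [vc_sub] at e2
  have key : nr ((s - a) • D.v + (-t1 - t) • D.u i) ≤ W / D.c0 + 2 * r + C := by
    have e3 : (s - a) • D.v + (-t1 - t) • D.u i =
        ((vc x - vc z - a • D.v) + (vc z - A • D.v - t • D.u i)) -
        ((vc x - vc z1 - s • D.v - t1 • (-D.u i)) + (vc z1 - A • D.v)) := by
      module
    rw [e3]
    refine (nr_sub_le _ _).trans ?_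
    have := nr_add_le (vc x - vc z - a • D.v) (vc z - A • D.v - t • D.u i)
    have := nr_add_le (vc x - vc z1 - s • D.v - t1 • (-D.u i)) (vc z1 - A • D.v)
    linarith
  have h2 := line_sep (D.f i) D.v (D.u i) (D.fv i) (D.fu i) key
  have h3 : t ≤ |(-t1 - t)| := by
    rw [abs_of_nonpos (by linarith)]; linarith
  have h4 := mul_le_mul_of_nonneg_right h3 (nr_nonneg (D.u i))
  linarith

/-- independent trials -/
theorem trials : TrialsT := by
  intro e F _ A B η h0 h1 hA hB hP n
  have main : MeasurableSet[MS (⋃ i ∈ Finset.range n, A i)] (⋂ i ∈ Finset.range n, (B i)ᶜ) ∧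
      PM e F (⋂ i ∈ Finset.range n, (B i)ᶜ) ≤ ENNReal.ofReal ((1 - η) ^ n) := by
    induction n with
    | zero => simp
    | succ n ih =>
      obtain ⟨ih1, ih2⟩ := ih
      have hm : ∀ i, MeasurableSet (B i) := fun i => MS_le _ _ (hB i)
      have hset : (⋂ i ∈ Finset.range (n + 1), (B i)ᶜ) =
          (⋂ i ∈ Finset.range n, (B i)ᶜ) ∩ (B n)ᶜ := by
        rw [Finset.range_add_one, Finset.set_biInter_insert, Set.inter_comm]
      refine ⟨?_, ?_⟩
      · rw [hset]
        refine MeasurableSet.inter ?_ ?_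
        · refine MS_mono ?_ _ ih1
          exact Set.biUnion_subset_biUnion_left (by
            intro i hi
            simp only [Finset.coe_range, Set.mem_Iio] at hi ⊢
            omega)
        · refine MeasurableSet.compl ?_
          refine MS_mono ?_ _ (hB n)
          exact Set.subset_biUnion_of_mem (u := fun i => A i) (by simp)
      · have hdis : Disjoint (⋃ i ∈ Finset.range n, A i) (A n) := by
          rw [Set.disjoint_iUnion₂_left]
          intro i hi
          exact hA i n (by
            have := Finset.mem_range.1 hi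
            omega)
        have hind := (Indep_iff _ _ _).1 (indep_MS F hdis) _ _ ih1 (hB n).compl
        have hc : PM e F (B n)ᶜ ≤ ENNReal.ofReal (1 - η) := by
          rw [prob_compl_eq_one_sub (hm n), ENNReal.ofReal_sub 1 h0, ENNReal.ofReal_one]
          exact tsub_le_tsub_left (hP n) 1
        rw [hset, hind, pow_succ, ENNReal.ofReal_mul (pow_nonneg (by linarith) n)]
        exact mul_le_mul' ih2 hc
  exact main.2

end Pool.Agent.J6H99.NX
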