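import Pool.Agent.J6H99.NX.Flat

/-!
# First-passage percolation: climbing along a direction
-/

set_option autoImplicit false

open MeasureTheory ProbabilityTheory Filter Topology
open scoped ENNReal

namespace Pool.Agent.J6H99.NX

variable {e : ℕ}

/-- the part of a walk up to the first visit of a set -/
lemma first_hit' (Y : Set (V e)) {x y : V e} (p : (lat e).Walk x y) (hy : y ∈ Y) :
    ∃ z ∈ Y, ∃ p' : (lat e).Walk x z, p'.length ≤ p.length ∧
      (∀ s ∈ p'.edges, ∃ v ∈ s, v ∉ Y) ∧ ∀ v ∈ p'.support, v ∈ p.support := by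
  classical
  induction p with
  | nil => exact ⟨_, hy, SimpleGraph.Walk.nil, le_rfl, by simp, by simp⟩
  | @cons x x' y h p ih =>
    by_cases hx : x ∈ Y
    · exact ⟨x, hx, SimpleGraph.Walk.nil, by simp, by simp, by simp⟩
    · obtain ⟨z, hz, p', h1, h2, h3⟩ := ih hy
      refine ⟨z, hz, SimpleGraph.Walk.cons h p', ?_, ?_, ?_⟩
      · rw [SimpleGraph.Walk.length_cons, SimpleGraph.Walk.length_cons]; omega
      · intro s hs
        rw [SimpleGraph.Walk.edges_cons, List.mem_cons] at hs
        rcases hs with rfl | hs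
        · exact ⟨x, by simp, hx⟩
        · exact h2 s hs
      · intro v hv
        rw [SimpleGraph.Walk.support_cons, List.mem_cons] at hv ⊢
        rcases hv with rfl | hv
        · exact Or.inl rfl
        · exact Or.inr (h3 v hv)

/-- a path up to the first visit of a set -/
lemma first_hit_path (Y : Set (V e)) {x y : V e} (p : (lat e).Walk x y) (hy : y ∈ Y) :
    ∃ z ∈ Y, ∃ p' : (lat e).Walk x z, p'.IsPath ∧ p'.length ≤ p.length ∧
      (∀ s ∈ p'.edges, ∃ v ∈ s, v ∉ Y) ∧ ∀ v ∈ p'.support, v ∈ p.support := by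
  classical
  obtain ⟨z, hz, p', h1, h2, h3⟩ := first_hit' Y p hy
  exact ⟨z, hz, p'.bypass, p'.bypass_isPath, p'.length_bypass_le_length.trans h1,
    fun s hs => h2 s (p'.edges_bypass_subset_edges hs),
    fun v hv => h3 v (p'.support_bypass_subset_support hv)⟩

/-- **Climbing.** If `dt c v = 1`, some path from `x` along the half-line `x + t v`, `t ≥ 0`, leads
to a point of level at least `B`; its length is `O (B - lf c x + 1)`; all its edges have an end
point of level less than `B`. -/
theorem climb (c v : E e) (hcv : dt c v = 1) : ∃ C : ℝ, 0 < C ∧ ∀ (x : V e) (B : ℝ),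
    lf c x < B → ∃ (y : V e) (p : (lat e).Walk x y), B ≤ lf c y ∧ p.IsPath ∧
      (p.length : ℝ) ≤ C * (B - lf c x + 1) ∧ Uses p (Low c B) ∧
      ∀ z ∈ p.support, ∃ t : ℝ, 0 ≤ t ∧ t ≤ B - lf c x + C ∧ nr (vc z - vc x - t • v) ≤ C := by
  have he : (0 : ℝ) ≤ e := Nat.cast_nonneg e
  have hc := nr_nonneg c
  have hv := nr_nonneg v
  have hE := cE_pos e
  set c1 : ℝ := nr c * ((e : ℝ) + 2) with hc1
  have hc10 : 0 ≤ c1 := by positivity
  set C : ℝ := cE e * (nr v + 1) * (c1 + (e : ℝ) + 4) + 2 * ((e : ℝ) + 2) + cE e + c1 with hC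
  have hC0 : 0 < C := by positivity
  refine ⟨C, hC0, fun x B hB => ?_⟩
  set h : ℝ := B - lf c x with hh
  have hh0 : 0 < h := by rw [hh]; linarith
  set b : E e := vc x + (h + c1) • v with hb
  have hyB : B ≤ lf c (rnd b) := by
    have h1 := abs_le.1 (abs_lf_rnd_sub c b)
    have h2 : dt c b = lf c x + (h + c1) := by
      rw [hb, dt_add, dt_smul, hcv]
      show dt c (vc x) + (h + c1) * 1 = dt c (vc x) + (h + c1)
      ring
    rw [h2] at h1
    have := h1.1
    rw [← hc1] at this
    rw [hh] at this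
    linarith
  obtain ⟨p, -, hp1, hp2⟩ := seg_path (x := x) (y := rnd b) (a := vc x) (b := b)
    (r := (e : ℝ) + 2) (by positivity) (by simp; positivity) (nr_rnd_sub b)
  obtain ⟨y, hy, p', h1, h2, h3, h4⟩ := first_hit_path (HS c B) p hyB
  have hba : b - vc x = (h + c1) • v := by rw [hb]; abel
  rw [hba] at hp1 hp2
  have hnr : nr ((h + c1) • v) = (h + c1) * nr v := by
    rw [nr_smul, abs_of_nonneg (by positivity)]
  refine ⟨y, p', hy, h1, ?_, ?_, ?_⟩
  · have h5 : (p'.length : ℝ) ≤ p.length := by exact_mod_cast h2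
    refine h5.trans (hp1.trans ?_)
    rw [hnr]
    have h6 : (h + c1) * nr v + ((e : ℝ) + 2) + 1 ≤
        (nr v + 1) * (c1 + (e : ℝ) + 4) * (h + 1) := by
      have p1 : 0 ≤ nr v * h := by positivity
      have p2 : 0 ≤ c1 * h := by positivity
      have p3 : 0 ≤ (e : ℝ) * h := by positivity
      have p4 : 0 ≤ nr v * (c1 * h) := by positivity
      have p5 : 0 ≤ nr v * ((e : ℝ) * h) := by positivity
      have p6 : 0 ≤ nr v * (e : ℝ) := by positivity
      nlinarith
    calc cE e * ((h + c1) * nr v + ((e : ℝ) + 2) + 1)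
        ≤ cE e * ((nr v + 1) * (c1 + (e : ℝ) + 4) * (h + 1)) := by gcongr
      _ = cE e * (nr v + 1) * (c1 + (e : ℝ) + 4) * (h + 1) := by ring
      _ ≤ C * (h + 1) := by
          refine mul_le_mul_of_nonneg_right ?_ (by linarith)
          rw [hC]
          have : 0 ≤ 2 * ((e : ℝ) + 2) + cE e + c1 := by positivity
          linarith
  · intro s hs
    obtain ⟨z, hz, hzB⟩ := h3 s hs
    exact ⟨z, hz, not_le.1 hzB⟩
  · intro z hz
    obtain ⟨t, ht0, ht1, ht⟩ := hp2 z (h4 z hz)
    refine ⟨t * (h + c1), by positivity, ?_, ?_⟩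
    · have h5 : t * (h + c1) ≤ 1 * (h + c1) :=
        mul_le_mul_of_nonneg_right ht1 (by positivity)
      have h6 : c1 ≤ C := by
        rw [hC]
        have : 0 ≤ cE e * (nr v + 1) * (c1 + (e : ℝ) + 4) + 2 * ((e : ℝ) + 2) + cE e := by
          positivity
        linarith
      linarith
    · have h5 : vc z - vc x - (t * (h + c1)) • v = vc z - (vc x + t • (h + c1) • v) := by
        rw [smul_smul]; abel
      rw [h5]
      refine ht.trans ?_
      rw [hC]
      have : 0 ≤ cE e * (nr v + 1) * (c1 + (e : ℝ) + 4) := by positivity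
      linarith

end Pool.Agent.J6H99.NX
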