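import Pool.Agent.J6H99.NX.Lin

/-!
# First-passage percolation: corners of the limit shape, tubes and quantiles

Everything in this file is a definition or a simple fact. `Cor` collects the data of a corner of the
unit ball of the time constant, in the direction `v`: finitely many linear functionals `f i` which
are at most the mean passage time, are equal to `1` at `v`, and such that a lateral displacement
costs at least a multiple of its length for one of them; and for each of them a lateral direction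
`u i` in which the time constant is tangent to `f i` at `v`.
-/

set_option autoImplicit false

open MeasureTheory ProbabilityTheory Filter Topology
open scoped ENNReal

namespace Pool.Agent.J6H99.NX

variable {e : ℕ}

/-- the variance bound -/
def VarB (e : ℕ) (q : Par) (F : Measure ℝ) [IsProbabilityMeasure F] : Prop :=
  ∃ C : ℝ, 0 ≤ C ∧ ∀ x : V e, ∫ ω, (T q ω 0 x - g q F x) ^ 2 ∂(PM e F) ≤ C * n1 x

/-- far points are reached late: a linear lower bound, with failure probability smaller than every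
power -/
def FarB (e : ℕ) (q : Par) (F : Measure ℝ) [IsProbabilityMeasure F] : Prop :=
  ∃ c1 : ℝ, 0 < c1 ∧ ∀ p : ℕ, ∃ C : ℝ, 0 ≤ C ∧ ∀ n : ℕ,
    (PM e F) {ω | ∃ y : V e, (n : ℤ) ≤ n1 y ∧ T q ω 0 y < c1 * n1 y} ≤
      ENNReal.ofReal (C / ((n : ℝ) + 1) ^ p)

/-- A corner. -/
structure Cor (e : ℕ) (q : Par) (F : Measure ℝ) [IsProbabilityMeasure F] (ι : Type)
    [Fintype ι] where
  /-- the direction -/
  v : E e
  /-- the functionals -/
  f : ι → E e
  fv : ∀ i, dt (f i) v = 1
  /-- the functionals are at most the mean passage time -/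
  lb : ∀ i (x : V e), lf (f i) x ≤ g q F x
  /-- the lateral constant -/
  c0 : ℝ
  c0_pos : 0 < c0
  /-- lateral displacements cost (`χ` is the mean of the `f i`) -/
  lat : ∀ y : E e, ∃ i, c0 * nr (y - dt ((Fintype.card ι : ℝ)⁻¹ • ∑ j, f j) y • v) ≤
    dt (f i) y - dt ((Fintype.card ι : ℝ)⁻¹ • ∑ j, f j) y
  /-- the lateral directions of tangency -/
  u : ι → E e
  fu : ∀ i, dt (f i) (u i) = 0
  u_ne : ∀ i, u i ≠ 0
  /-- tangency in the direction `u i` -/
  tang : ∀ i, ∀ δ : ℝ, 0 < δ → ∃ s0 : ℝ, 0 < s0 ∧ ∀ s : ℝ, 0 < s → s ≤ s0 →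
    ∀ᶠ n : ℕ in atTop, g q F (rnd ((n : ℝ) • (v + s • u i))) ≤ n * (1 + δ * s)
  /-- the time constant in the direction `v` is (at most) `1` -/
  ub : ∀ δ : ℝ, 0 < δ → ∀ᶠ n : ℕ in atTop, g q F (rnd ((n : ℝ) • v)) ≤ n * (1 + δ)

variable {q : Par} {F : Measure ℝ} [IsProbabilityMeasure F] {ι : Type} [Fintype ι]

/-- the mean of the functionals -/
noncomputable def Cor.chi (D : Cor e q F ι) : E e := (Fintype.card ι : ℝ)⁻¹ • ∑ j, D.f j

/-- the tube of length `l` and width `w` -/
def Tube (D : Cor e q F ι) (l w : ℝ) : Set (V e) :=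
  {x | -w ≤ lf D.chi x ∧ lf D.chi x ≤ l + w ∧ ∀ i, lf (D.f i) x - lf D.chi x ≤ w}

/-- good crossing of a tube -/
def K (D : Cor e q F ι) (l w : ℝ) : Set (Om e) :=
  Ev q (EIn (Tube D l w)) 0 (rnd (l • D.v)) (l + w)

/-- the quantile: the least `w` such that a crossing with width and excess `≤ w` exists with
probability at least `ε` -/
noncomputable def kk (D : Cor e q F ι) (ε : ℝ) (l : ℕ) : ℕ :=
  sInf {w : ℕ | ENNReal.ofReal ε ≤ PM e F (K D l w)}

/-- forward search event: some walk in the tube gains `s` over the functional `f i`; the walk stays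
at levels `≥ 0`, and its end point is the only point of maximal level -/
def SSf (D : Cor e q F ι) (i : ι) (l w s : ℝ) : Set (Om e) :=
  ⋃ y : V e, Ev q (EIn (Tube D l w ∩ HS (D.f i) 0 ∩ {x | lf (D.f i) x ≤ lf (D.f i) y}) ∩
    Low (D.f i) (lf (D.f i) y)) 0 y (lf (D.f i) y - s)

/-- general search event: some walk from `0` in the tube gains `s` over the functional `f i` -/
def SSg (D : Cor e q F ι) (i : ι) (l w s : ℝ) : Set (Om e) :=
  ⋃ y : V e, Ev q (EIn (Tube D l w)) 0 y (lf (D.f i) y - s)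

/-- the neighbourhood of width `r` of the strip `{s v + t p : 0 ≤ s ≤ l, 0 ≤ t}` -/
def Strip (v p : E e) (l r : ℝ) : Set (V e) :=
  {y | ∃ s t : ℝ, 0 ≤ s ∧ s ≤ l ∧ 0 ≤ t ∧ nr (vc y - s • v - t • p) ≤ r}

/-- somewhere fast weights: `a'` times the `ℓ¹` length is smaller than the time constant `1` -/
def Cor.Slow (D : Cor e q F ι) : Prop := ∃ a' : ℝ, 0 < F {t | q.w t ≤ a'} ∧ a' * nr D.v < 1

/-! ### simple facts -/

namespace Cor

variable (D : Cor e q F ι)

lemma card_pos (D : Cor e q F ι) : 0 < (Fintype.card ι : ℝ) := by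
  obtain ⟨i, -⟩ := D.lat 0
  haveI : Nonempty ι := ⟨i⟩
  exact_mod_cast Fintype.card_pos

lemma dt_chi (y : E e) : dt D.chi y = (Fintype.card ι : ℝ)⁻¹ * ∑ j, dt (D.f j) y := by
  unfold chi; rw [smul_dt, sum_dt]

lemma chi_v : dt D.chi D.v = 1 := by
  rw [D.dt_chi]
  simp only [D.fv, Finset.sum_const, Finset.card_univ, nsmul_eq_mul, mul_one]
  exact inv_mul_cancel₀ D.card_pos.ne'

lemma v_ne (D : Cor e q F ι) : D.v ≠ 0 := by
  intro h
  have := D.chi_v
  rw [h, dt_zero] at this
  norm_num at this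

lemma f_ne (i : ι) : D.f i ≠ 0 := by
  intro h
  have := D.fv i
  rw [h] at this
  simp [dt] at this

lemma sum_f_sub_chi (y : E e) : ∑ j, (dt (D.f j) y - dt D.chi y) = 0 := by
  rw [Finset.sum_sub_distrib, D.dt_chi]
  simp only [Finset.sum_const, Finset.card_univ, nsmul_eq_mul]
  rw [← mul_assoc, mul_inv_cancel₀ D.card_pos.ne', one_mul, sub_self]

/-- if the functionals exceed `χ` by at most `w`, they are below it by at most `card ι * w` -/
lemma f_sub_chi_ge {y : E e} {w : ℝ} (h : ∀ i, dt (D.f i) y - dt D.chi y ≤ w) (i : ι) :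
    -(Fintype.card ι * w) ≤ dt (D.f i) y - dt D.chi y := by
  classical
  have h0 := D.sum_f_sub_chi y
  rw [← Finset.add_sum_erase _ _ (Finset.mem_univ i)] at h0
  have h1 : ∑ j ∈ Finset.univ.erase i, (dt (D.f j) y - dt D.chi y) ≤
      ∑ _j ∈ Finset.univ.erase i, w := Finset.sum_le_sum fun j _ => h j
  rw [Finset.sum_const, Finset.card_erase_of_mem (Finset.mem_univ i), Finset.card_univ,
    nsmul_eq_mul] at h1
  have hw : 0 ≤ w := by
    by_contra hw
    push Not at hw
    have h2 : ∑ j, (dt (D.f j) y - dt D.chi y) ≤ ∑ _j : ι, w :=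
      Finset.sum_le_sum fun j _ => h j
    rw [D.sum_f_sub_chi, Finset.sum_const, Finset.card_univ, nsmul_eq_mul] at h2
    have := mul_neg_of_pos_of_neg D.card_pos hw
    linarith
  have h3 : (((Fintype.card ι - 1 : ℕ)) : ℝ) * w ≤ Fintype.card ι * w := by
    refine mul_le_mul_of_nonneg_right ?_ hw
    exact_mod_cast Nat.sub_le _ _
  linarith

/-- points of a tube are close to the line -/
lemma near_line {y : E e} {w : ℝ} (h : ∀ i, dt (D.f i) y - dt D.chi y ≤ w) :
    nr (y - dt D.chi y • D.v) ≤ w / D.c0 := by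
  obtain ⟨i, hi⟩ := D.lat y
  rw [le_div_iff₀ D.c0_pos, mul_comm]
  exact le_trans hi (h i)

end Cor

lemma Tube_mono (D : Cor e q F ι) {l w w' : ℝ} (h : w ≤ w') : Tube D l w ⊆ Tube D l w' :=
  fun _ ⟨h1, h2, h3⟩ => ⟨by linarith, by linarith, fun i => (h3 i).trans h⟩

lemma K_mono (D : Cor e q F ι) {l w w' : ℝ} (h : w ≤ w') : K D l w ⊆ K D l w' :=
  (Ev_mono_set q (EIn_mono (Tube_mono D h)) _ _ _).trans (Ev_mono q _ _ _ (by linarith))

lemma K_meas (D : Cor e q F ι) (l w : ℝ) : MeasurableSet (K D l w) := Ev_meas q _ _ _ _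

end Pool.Agent.J6H99.NX
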