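import Pool.Agent.J6H99.NX.Base

/-!
# First-passage percolation: measurability, independence, invariance
-/

set_option autoImplicit false

open MeasureTheory ProbabilityTheory
open scoped ENNReal

namespace Pool.Agent.J6H99.NX

variable {e : ℕ}

instance countable_walk (x y : V e) : Countable ((lat e).Walk x y) :=
  Function.Injective.countable (f := fun p => p.support) SimpleGraph.Walk.support_injective

/-- the `σ`-algebra of the edges of `A` -/
@[reducible] def MS (A : Set (Sym2 (V e))) : MeasurableSpace (Om e) :=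
  ⨆ s ∈ A, MeasurableSpace.comap (fun ω : Om e => ω s) (inferInstance : MeasurableSpace ℝ)

lemma MS_le (A : Set (Sym2 (V e))) : MS A ≤ (inferInstance : MeasurableSpace (Om e)) :=
  iSup₂_le fun s _ => (measurable_pi_apply s).comap_le

lemma MS_mono {A B : Set (Sym2 (V e))} (h : A ⊆ B) : MS A ≤ MS B :=
  biSup_mono h

lemma measurable_eval {A : Set (Sym2 (V e))} {s : Sym2 (V e)} (hs : s ∈ A) :
    Measurable[MS A] (fun ω : Om e => ω s) := by
  have h1 : MeasurableSpace.comap (fun ω : Om e => ω s) (inferInstance : MeasurableSpace ℝ) ≤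
      MS A := le_iSup₂_of_le s hs le_rfl
  exact (comap_measurable (fun ω : Om e => ω s)).mono h1 le_rfl

theorem indep_MS (F : Measure ℝ) [IsProbabilityMeasure F] {A B : Set (Sym2 (V e))}
    (h : Disjoint A B) : Indep (MS A) (MS B) (PM e F) := by
  have h1 : iIndepFun (fun (s : Sym2 (V e)) (ω : Om e) => ω s) (PM e F) :=
    iIndepFun_infinitePi (P := fun _ : Sym2 (V e) => F) (X := fun _ t => t)
      (fun _ => measurable_id)
  exact indep_iSup_of_disjoint (fun s => (measurable_pi_apply s).comap_le) h1 h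

lemma measurable_cost_MS (q : Par) {x y : V e} (p : (lat e).Walk x y) {A : Set (Sym2 (V e))}
    (hp : Uses p A) : Measurable[MS A] (fun ω : Om e => cost q ω p) := by
  have h : ∀ L : List (Sym2 (V e)), (∀ s ∈ L, s ∈ A) →
      Measurable[MS A] (fun ω : Om e => (L.map fun s => q.w (ω s)).sum) := by
    intro L
    induction L with
    | nil =>
      intro _
      simp only [List.map_nil, List.sum_nil]
      exact @measurable_const _ _ _ (MS A) _
    | cons s L ih =>
      intro hL
      simp only [List.map_cons, List.sum_cons]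
      exact (q.measurable_w.comp (measurable_eval (hL s (List.mem_cons_self ..)))).add
        (ih fun s' hs' => hL s' (List.mem_cons_of_mem _ hs'))
  exact h p.edges hp

lemma measurable_cost (q : Par) {x y : V e} (p : (lat e).Walk x y) :
    Measurable (fun ω : Om e => cost q ω p) :=
  (measurable_cost_MS q p (A := Set.univ) (fun _ _ => Set.mem_univ _)).mono (MS_le _) le_rfl

lemma Ev_meas_MS (q : Par) {A B : Set (Sym2 (V e))} (hAB : A ⊆ B) (x y : V e) (t : ℝ) :
    MeasurableSet[MS B] (Ev q A x y t) := by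
  have h : Ev q A x y t = ⋃ p : (lat e).Walk x y, {ω | Uses p A ∧ cost q ω p ≤ t} := by
    ext ω; simp [Ev]
  rw [h]
  refine @MeasurableSet.iUnion _ _ (MS B) _ _ fun p => ?_
  by_cases hp : Uses p A
  · have : {ω : Om e | Uses p A ∧ cost q ω p ≤ t} = (fun ω : Om e => cost q ω p) ⁻¹' Set.Iic t := by
      ext ω; simp [hp]
    rw [this]
    exact (measurable_cost_MS q p (hp.mono hAB)) measurableSet_Iic
  · have : {ω : Om e | Uses p A ∧ cost q ω p ≤ t} = ∅ := by
      ext ω; simp [hp]
    rw [this]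
    exact @MeasurableSet.empty _ (MS B)

lemma Ev_meas (q : Par) (A : Set (Sym2 (V e))) (x y : V e) (t : ℝ) :
    MeasurableSet (Ev q A x y t) := MS_le A _ (Ev_meas_MS q subset_rfl x y t)

lemma Ev_mono_set (q : Par) {A B : Set (Sym2 (V e))} (hAB : A ⊆ B) (x y : V e) (t : ℝ) :
    Ev q A x y t ⊆ Ev q B x y t := fun _ ⟨p, hp, hc⟩ => ⟨p, hp.mono hAB, hc⟩

lemma Ev_mono (q : Par) (A : Set (Sym2 (V e))) (x y : V e) {t t' : ℝ} (h : t ≤ t') :
    Ev q A x y t ⊆ Ev q A x y t' := fun _ ⟨p, hp, hc⟩ => ⟨p, hp, hc.trans h⟩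

lemma Ev_trans (q : Par) {A : Set (Sym2 (V e))} {x y z : V e} {t t' : ℝ} {ω : Om e}
    (h : ω ∈ Ev q A x y t) (h' : ω ∈ Ev q A y z t') : ω ∈ Ev q A x z (t + t') := by
  obtain ⟨p, hp, hc⟩ := h
  obtain ⟨p', hp', hc'⟩ := h'
  exact ⟨p.append p', hp.append hp', by rw [cost_append]; linarith⟩

lemma Ev_symm (q : Par) {A : Set (Sym2 (V e))} {x y : V e} {t : ℝ} {ω : Om e}
    (h : ω ∈ Ev q A x y t) : ω ∈ Ev q A y x t := by
  obtain ⟨p, hp, hc⟩ := h
  exact ⟨p.reverse, hp.reverse, by rw [cost_reverse]; exact hc⟩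

/-! ### Automorphisms -/

/-- the bijection of the pairs -/
def symEquiv (φ : (lat e) ≃g (lat e)) : Sym2 (V e) ≃ Sym2 (V e) where
  toFun := Sym2.map φ
  invFun := Sym2.map φ.symm
  left_inv s := by
    induction s with
    | _ x y => simp [Sym2.map_mk]
  right_inv s := by
    induction s with
    | _ x y => simp [Sym2.map_mk]

/-- the action on the configurations -/
def act (φ : (lat e) ≃g (lat e)) (ω : Om e) : Om e := fun s => ω (s.map φ)

theorem act_mp (F : Measure ℝ) [IsProbabilityMeasure F] (φ : (lat e) ≃g (lat e)) :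
    MeasurePreserving (act φ) (PM e F) (PM e F) := by
  refine ⟨measurable_pi_iff.2 fun s => measurable_pi_apply _, ?_⟩
  have h := Measure.infinitePi_map_piCongrLeft (X := fun _ : Sym2 (V e) => ℝ)
    (fun _ : Sym2 (V e) => F) (symEquiv φ).symm
  have h2 : (act φ : Om e → Om e) =
      (MeasurableEquiv.piCongrLeft (fun _ : Sym2 (V e) => ℝ) (symEquiv φ).symm : Om e → Om e) := by
    funext ω s
    obtain ⟨s', rfl⟩ := (symEquiv φ).symm.surjective s
    rw [MeasurableEquiv.piCongrLeft_apply_apply]
    show ω (((symEquiv φ).symm s').map φ) = ω s'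
    congr 1
    exact (symEquiv φ).apply_symm_apply s'
  rw [h2]
  exact h

lemma cost_act (q : Par) (φ : (lat e) ≃g (lat e)) (ω : Om e) {x y : V e}
    (p : (lat e).Walk x y) : cost q (act φ ω) p = cost q ω (p.map φ.toHom) := by
  unfold cost
  rw [SimpleGraph.Walk.edges_map, List.map_map]
  rfl

lemma Ev_act_sub (q : Par) (φ : (lat e) ≃g (lat e)) {A B : Set (Sym2 (V e))}
    (h : ∀ s ∈ A, s.map φ ∈ B) (x y : V e) (t : ℝ) {ω : Om e} (hω : act φ ω ∈ Ev q A x y t) :
    ω ∈ Ev q B (φ x) (φ y) t := by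
  obtain ⟨p, hp, hc⟩ := hω
  refine ⟨p.map φ.toHom, ?_, ?_⟩
  · intro s hs
    rw [SimpleGraph.Walk.edges_map, List.mem_map] at hs
    obtain ⟨s', hs', rfl⟩ := hs
    exact h s' (hp s' hs')
  · rw [← cost_act]; exact hc

lemma act_act_symm (φ : (lat e) ≃g (lat e)) (ω : Om e) : act φ.symm (act φ ω) = ω := by
  funext s
  show ω ((s.map φ.symm).map φ) = ω s
  congr 1
  exact (symEquiv φ).apply_symm_apply s

theorem Ev_act (q : Par) (φ : (lat e) ≃g (lat e)) {A B : Set (Sym2 (V e))}
    (h : ∀ s, s ∈ A ↔ s.map φ ∈ B) (x y : V e) (t : ℝ) :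
    act φ ⁻¹' (Ev q A x y t) = Ev q B (φ x) (φ y) t := by
  ext ω
  constructor
  · exact fun hω => Ev_act_sub q φ (fun s hs => (h s).1 hs) x y t hω
  · intro hω
    rw [← act_act_symm φ ω] at hω
    have h1 := Ev_act_sub q φ.symm (A := B) (B := A) (fun s hs => by
      rw [h]
      have : (s.map φ.symm).map φ = s := (symEquiv φ).apply_symm_apply s
      rw [this]; exact hs) (φ x) (φ y) t hω
    simpa using h1

theorem prob_Ev (q : Par) (F : Measure ℝ) [IsProbabilityMeasure F] (φ : (lat e) ≃g (lat e))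
    {A B : Set (Sym2 (V e))} (h : ∀ s, s ∈ A ↔ s.map φ ∈ B) (x y : V e) (t : ℝ) :
    PM e F (Ev q B (φ x) (φ y) t) = PM e F (Ev q A x y t) := by
  rw [← Ev_act q φ h x y t]
  exact (act_mp F φ).measure_preimage (Ev_meas q A x y t).nullMeasurableSet

/-- translation -/
def tr (z : V e) : (lat e) ≃g (lat e) where
  toFun x := x + z
  invFun x := x - z
  left_inv x := by simp
  right_inv x := by simp
  map_rel_iff' := by
    intro x y
    show n1 (x + z - (y + z)) = 1 ↔ n1 (x - y) = 1
    rw [add_sub_add_right_eq_sub]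

@[simp] lemma tr_apply (z x : V e) : tr z x = x + z := rfl

/-- point reflection `x ↦ z - x` -/
def refl (z : V e) : (lat e) ≃g (lat e) where
  toFun x := z - x
  invFun x := z - x
  left_inv x := by simp
  right_inv x := by simp
  map_rel_iff' := by
    intro x y
    show n1 (z - x - (z - y)) = 1 ↔ n1 (x - y) = 1
    rw [sub_sub_sub_cancel_left, n1_sub_comm]

@[simp] lemma refl_apply (z x : V e) : refl z x = z - x := rfl

/-- permutation of the coordinates -/
def perm (σ : Equiv.Perm (Fin (e + 2))) : (lat e) ≃g (lat e) where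
  toFun x := x ∘ σ
  invFun x := x ∘ σ.symm
  left_inv x := by funext i; simp
  right_inv x := by funext i; simp
  map_rel_iff' := by
    intro x y
    show n1 (x ∘ σ - y ∘ σ) = 1 ↔ n1 (x - y) = 1
    have : n1 (x ∘ σ - y ∘ σ) = n1 (x - y) := by
      unfold n1
      exact Equiv.sum_comp σ (fun i => |(x - y) i|)
    rw [this]

@[simp] lemma perm_apply (σ : Equiv.Perm (Fin (e + 2))) (x : V e) : perm σ x = x ∘ σ := rfl

/-- changes of signs -/
def flip (t : Fin (e + 2) → ℤ) (ht : ∀ i, t i * t i = 1) : (lat e) ≃g (lat e) where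
  toFun x := fun i => t i * x i
  invFun x := fun i => t i * x i
  left_inv x := by funext i; show t i * (t i * x i) = x i; rw [← mul_assoc, ht, one_mul]
  right_inv x := by funext i; show t i * (t i * x i) = x i; rw [← mul_assoc, ht, one_mul]
  map_rel_iff' := by
    intro x y
    show n1 ((fun i => t i * x i) - (fun i => t i * y i)) = 1 ↔ n1 (x - y) = 1
    have : n1 ((fun i => t i * x i) - (fun i => t i * y i)) = n1 (x - y) := by
      unfold n1
      refine Finset.sum_congr rfl fun i _ => ?_
      show |t i * x i - t i * y i| = |x i - y i|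
      rw [← mul_sub, abs_mul]
      have : |t i| = 1 := by
        have h1 := ht i
        rcases Int.isUnit_iff.1 (IsUnit.of_mul_eq_one _ h1) with h | h <;> rw [h] <;> rfl
      rw [this, one_mul]
    rw [this]

@[simp] lemma flip_apply (t : Fin (e + 2) → ℤ) (ht : ∀ i, t i * t i = 1) (x : V e) :
    flip t ht x = fun i => t i * x i := rfl

lemma EIn_map (φ : (lat e) ≃g (lat e)) {R R' : Set (V e)} (h : ∀ v, v ∈ R ↔ φ v ∈ R')
    (s : Sym2 (V e)) : s ∈ EIn R ↔ s.map φ ∈ EIn R' := by
  constructor
  · intro hs v hv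
    rw [Sym2.mem_map] at hv
    obtain ⟨v', hv', rfl⟩ := hv
    exact (h v').1 (hs v' hv')
  · intro hs v hv
    exact (h v).2 (hs _ (Sym2.mem_map.2 ⟨v, hv, rfl⟩))

/-! ### The passage time -/

/-- there are walks of minimal length -/
lemma exists_walk_len (x y : V e) : ∃ p : (lat e).Walk x y, (p.length : ℤ) = n1 (y - x) := by
  -- by induction on the distance
  suffices h : ∀ n : ℕ, ∀ x y : V e, n1 (y - x) = n → ∃ p : (lat e).Walk x y, p.length = n by
    obtain ⟨p, hp⟩ := h (n1 (y - x)).toNat x y (Int.toNat_of_nonneg (n1_nonneg _)).symm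
    exact ⟨p, by rw [hp, Int.toNat_of_nonneg (n1_nonneg _)]⟩
  intro n
  induction n with
  | zero =>
    intro x y h
    have : y = x := eq_of_n1 (by simpa using h)
    subst this
    exact ⟨SimpleGraph.Walk.nil, rfl⟩
  | succ n ih =>
    intro x y h
    obtain ⟨i, hi⟩ : ∃ i, (y - x) i ≠ 0 := by
      by_contra hne
      push Not at hne
      have h0 : y - x = 0 := by funext i; exact hne i
      rw [h0, n1_zero] at h
      omega
    have key : ∀ z : V e, (∀ j, j ≠ i → z j = x j) → |y i - z i| = |y i - x i| - 1 →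
        n1 (y - z) = n := by
      intro z hz hzi
      have e1 : n1 (y - z) = |(y - z) i| + ∑ j ∈ Finset.univ.erase i, |(y - z) j| :=
        (Finset.add_sum_erase _ (fun j => |(y - z) j|) (Finset.mem_univ i)).symm
      have e2 : n1 (y - x) = |(y - x) i| + ∑ j ∈ Finset.univ.erase i, |(y - x) j| :=
        (Finset.add_sum_erase _ (fun j => |(y - x) j|) (Finset.mem_univ i)).symm
      have e3 : ∑ j ∈ Finset.univ.erase i, |(y - z) j| =
          ∑ j ∈ Finset.univ.erase i, |(y - x) j| := by
        refine Finset.sum_congr rfl fun j hj => ?_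
        simp only [Pi.sub_apply]
        rw [hz j (Finset.ne_of_mem_erase hj)]
      rw [e3] at e1
      have e4 : |(y - z) i| = |(y - x) i| - 1 := hzi
      rw [e4] at e1
      rw [h] at e2
      push_cast at e2
      linarith
    have hi : y i - x i ≠ 0 := hi
    rcases lt_or_gt_of_ne hi with hlt | hgt
    · have h1 := key (x - u i) (fun j hj => by simp [u, Pi.single_eq_of_ne hj]) (by
        simp only [Pi.sub_apply, u, Pi.single_eq_same]
        rw [abs_of_nonpos (by omega), abs_of_nonpos (by omega)]; ring)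
      obtain ⟨p, hp⟩ := ih (x - u i) y h1
      exact ⟨SimpleGraph.Walk.cons (adj_sub_u x i) p, by
        rw [SimpleGraph.Walk.length_cons, hp]⟩
    · have h1 := key (x + u i) (fun j hj => by simp [u, Pi.single_eq_of_ne hj]) (by
        simp only [Pi.add_apply, u, Pi.single_eq_same]
        rw [abs_of_nonneg (by omega), abs_of_nonneg (by omega)]; ring)
      obtain ⟨p, hp⟩ := ih (x + u i) y h1
      exact ⟨SimpleGraph.Walk.cons (adj_add_u x i) p, by
        rw [SimpleGraph.Walk.length_cons, hp]⟩

lemma T_nonempty (x y : V e) : Nonempty ((lat e).Walk x y) :=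
  ⟨(exists_walk_len x y).choose⟩

instance (x y : V e) : Nonempty ((lat e).Walk x y) := T_nonempty x y

lemma bdd_cost (q : Par) (ω : Om e) (x y : V e) :
    BddBelow (Set.range fun p : (lat e).Walk x y => cost q ω p) :=
  ⟨0, by rintro _ ⟨p, rfl⟩; exact cost_nonneg q ω p⟩

lemma T_le (q : Par) (ω : Om e) {x y : V e} (p : (lat e).Walk x y) : T q ω x y ≤ cost q ω p :=
  ciInf_le (bdd_cost q ω x y) p

lemma T_nonneg (q : Par) (ω : Om e) (x y : V e) : 0 ≤ T q ω x y :=
  le_ciInf fun p => cost_nonneg q ω p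

lemma exists_near (q : Par) (ω : Om e) (x y : V e) {δ : ℝ} (hδ : 0 < δ) :
    ∃ p : (lat e).Walk x y, cost q ω p < T q ω x y + δ :=
  exists_lt_of_ciInf_lt (show T q ω x y < T q ω x y + δ by linarith)

lemma T_tri (q : Par) (ω : Om e) (x y z : V e) : T q ω x z ≤ T q ω x y + T q ω y z := by
  refine le_of_forall_pos_lt_add fun δ hδ => ?_
  obtain ⟨p, hp⟩ := exists_near q ω x y (half_pos hδ)
  obtain ⟨p', hp'⟩ := exists_near q ω y z (half_pos hδ)
  have := T_le q ω (p.append p')
  rw [cost_append] at this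
  linarith

lemma T_symm (q : Par) (ω : Om e) (x y : V e) : T q ω x y = T q ω y x := by
  refine le_antisymm ?_ ?_
  · refine le_ciInf fun p => ?_
    rw [← cost_reverse]; exact T_le q ω p.reverse
  · refine le_ciInf fun p => ?_
    rw [← cost_reverse]; exact T_le q ω p.reverse

lemma measurable_T (q : Par) (x y : V e) : Measurable fun ω : Om e => T q ω x y := by
  unfold T
  exact Measurable.iInf fun p => measurable_cost q p

lemma T_act (q : Par) (φ : (lat e) ≃g (lat e)) (ω : Om e) (x y : V e) :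
    T q (act φ ω) x y = T q ω (φ x) (φ y) := by
  refine le_antisymm ?_ ?_
  · refine le_ciInf fun p => ?_
    have h1 : cost q ω p = cost q (act φ ω) ((p.map φ.symm.toHom).copy
        (by simp) (by simp) : (lat e).Walk x y) := by
      have h2 : cost q ω p = cost q (act φ.symm (act φ ω)) p := by rw [act_act_symm]
      rw [h2, cost_act]
      unfold cost
      rw [SimpleGraph.Walk.edges_copy]
    rw [h1]
    exact T_le q _ _
  · refine le_ciInf fun p => ?_
    rw [cost_act]
    exact T_le q ω _

end Pool.Agent.J6H99.NX
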