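import Pool.Agent.J6H99.NX.Stm

/-!
# No corners of the limit shape: statements of the parts of CL, and of the final steps
-/

set_option autoImplicit false

open MeasureTheory ProbabilityTheory Filter Topology
open scoped ENNReal

namespace Pool.Agent.J6H99.NX

/-- FIRST. The first success, in the order of the levels `ℓ i` (ties are broken by an enumeration of
the finite type `I`): `W i = S i \ ⋃ (S j, j before i)`. -/
def FirstT : Prop := ∀ (e : ℕ) (c : E e) (I : Type) [Fintype I] (ℓ : I → ℝ) (S : I → Set (Om e))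
  (B : Set (Sym2 (V e))),
  (∀ i, MeasurableSet[MS (Low c (ℓ i))] (S i)) → (∀ i, MeasurableSet[MS B] (S i)) →
  ∃ W : I → Set (Om e), (∀ i, W i ⊆ S i) ∧ (∀ i, MeasurableSet[MS (Low c (ℓ i))] (W i)) ∧
    (∀ i, MeasurableSet[MS B] (W i)) ∧ (∀ i j, i ≠ j → Disjoint (W i) (W j)) ∧
    (⋃ i, W i) = ⋃ i, S i

/-- TRIALS. Independent trials. -/
def TrialsT : Prop := ∀ (e : ℕ) (F : Measure ℝ) [IsProbabilityMeasure F]
  (A : ℕ → Set (Sym2 (V e))) (B : ℕ → Set (Om e)) (η : ℝ), 0 ≤ η → η ≤ 1 →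
  (∀ i j, i ≠ j → Disjoint (A i) (A j)) → (∀ i, MeasurableSet[MS (A i)] (B i)) →
  (∀ i, ENNReal.ofReal η ≤ PM e F (B i)) →
  ∀ n : ℕ, PM e F (⋂ i ∈ Finset.range n, (B i)ᶜ) ≤ ENNReal.ofReal ((1 - η) ^ n)

/-- abstract search event -/
def SSa {e : ℕ} (q : Par) (c : E e) (T : Set (V e)) (s : ℝ) : Set (Om e) :=
  ⋃ y : V e, Ev q (EIn (T ∩ HS c 0 ∩ {x | lf c x ≤ lf c y}) ∩ Low c (lf c y)) 0 y (lf c y - s)

/-- CORE. `M` independent searches in the disjoint translates `z j + T` of a finite set `T`, each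
successful with probability at least `η`; default path `0 → z' → y'`, the second part in the set `R`
disjoint from the search tubes.

(Compared with `NC`: no last step `x' → y'` of sure cost `m''`.)

Proof. Index set `I = Option (Fin M × {y // y ∈ T ∧ 0 ≤ lf c y})`, levels `lf c (y + z j)`,
`S (j, y) = Ev q (EIn ({x | x - z j ∈ T} ∩ HS c (lf c (z j)) ∩ {x | lf c x ≤ lf c (y + z j)}) ∩
Low c (lf c (y + z j))) (z j) (y + z j) (lf c y - s)` (the translate by `z j` of the event in `SSa`,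
`Ev_act`, `act_mp`; for `s > 0` only `y ∈ T` with `lf c y ≥ s` matter: the walk is not `nil`, and
costs are nonnegative). `W (j, y)` by `FirstT` with `B = ⋃ j, EIn {x | x - z j ∈ T} ∩ EIn (HS c A)`,
`W none` the complement of the union, `P (W none) ≤ (1 - η) ^ M` by `TrialsT`; its point is `y'`.
On `W (j, y)`: `X (Slab c 0 (lf c (y + z j))) 0 {y + z j} ≤ X (Slab c 0 A) 0 {z j} + (lf c y - s)`
(`X_trans`, `X_mono`), the first summand is independent of `W (j, y)` (`lint_indep`, the edges of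
`B` have no end point of level `< A`); so the integral is at most
`P (W (j, y)) * (A + m + lf c y - s)`, while `lf c (y + z j) ≥ lf c y + A`. On `W none`:
`X ≤ X (Slab c 0 A) 0 {z'} + X (EIn R ∩ Low c (lf c y')) z' {y'}`, again independent of `W none`.
`ChainT` gives `∑ P (W (j, y)) * (lf c y + A) + P (W none) * (A + l) ≤
∑ P (W (j, y)) * (A + m + lf c y - s) + P (W none) * (A + m + l + m')`. -/
def CoreT : Prop := ∀ (e : ℕ) (q : Par) (F : Measure ℝ) [IsProbabilityMeasure F] [MB q F],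
  VarB e q F → FarB e q F → ∀ c : E e, c ≠ 0 → (∀ x : V e, lf c x ≤ g q F x) →
  ∀ (T R : Set (V e)) (s η A m m' l : ℝ) (M : ℕ) (z : ℕ → V e) (z' y' : V e),
    T.Finite → 0 < s → 0 ≤ η → η ≤ 1 → 0 ≤ A → 0 ≤ l → 0 ≤ m → 0 ≤ m' →
    ENNReal.ofReal η ≤ PM e F (SSa q c T s) →
    (∀ j < M, A ≤ lf c (z j)) →
    (∀ j < M, ∫⁻ ω, X q ω (Slab c 0 A) 0 {z j} ∂(PM e F) ≤ ENNReal.ofReal (A + m)) →
    (∀ i < M, ∀ j < M, i ≠ j → ∀ x, x - z i ∈ T → x - z j ∈ T → False) →
    (∀ j < M, ∀ x ∈ T, lf c x + lf c (z j) ≤ lf c y') →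
    A + l ≤ lf c y' →
    ∫⁻ ω, X q ω (Slab c 0 A) 0 {z'} ∂(PM e F) ≤ ENNReal.ofReal (A + m) →
    ∫⁻ ω, X q ω (EIn R ∩ Low c (lf c y')) z' {y'} ∂(PM e F) ≤ ENNReal.ofReal (l + m') →
    (∀ x ∈ R, 0 ≤ lf c x) → (∀ x ∈ R, ∀ j < M, x - z j ∉ T) →
    (1 - (1 - η) ^ M) * (s - m) ≤ (1 - η) ^ M * (m + m')

/-- CLGEO. Geometry: from `CoreT` to `ClT`.

Proof. As in `NC` (there `J6H59/NC/ClG.lean`), except for the end of the default path. There
`y' = x' + n • w0`; here `climb` (`Climb.lean`) from `x' = z' + rnd (l • v)` along `v` to the first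
point `y'` of level at least `B = A + l + C7 (k + 1)` (`B` above all levels of the search tubes), a
path of length `O (k + 1)` near the half-line `x' + t • v`, `t ≥ 0`, so in
`R = {x | x - z' ∈ Strip v p (l + C8 (k + 1)) (C9 (k + 1))}` with `p = - u i`, which is disjoint from
the search tubes as before. All vertices of `z' + Strip v p l (CU (k + 1))` have levels `< B`, so
`X (EIn R ∩ Low c (lf c y')) z' {y'} ≤ X (EIn (strip)) z' {x'} + cost (climb)`; the mean is at most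
`(l + CU (k + 1)) + q.b * C (k + 1)`. In `CoreT`: `l := B - A`, `m' := CU (k + 1) + q.b C (k + 1)`. -/
def ClGeoT : Prop := CoreT → ClT

/-- the lattice edges -/
def IsEdge {e : ℕ} (s : Sym2 (V e)) : Prop := ∃ x y : V e, s = s(x, y) ∧ n1 (x - y) = 1

/-- TRANSFER. From the canonical model to any i.i.d. family on the lattice edges.

Proof. On `Ω × Om e` with the measure `P.prod (PM e F)` consider `s ↦ t s ω` for lattice edges and
`s ↦ ω' s` for the other pairs: its law is `PM e F`. -/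
def TransferT : Prop := ∀ (e : ℕ) (F : Measure ℝ) [IsProbabilityMeasure F] (Ω : Type)
  (mΩ : MeasurableSpace Ω) (P : Measure Ω), IsProbabilityMeasure P →
  ∀ t : Sym2 (V e) → Ω → ℝ, (∀ s, Measurable (t s)) →
  iIndepFun (fun s : {s : Sym2 (V e) // IsEdge s} => t s.1) P →
  (∀ s : Sym2 (V e), IsEdge s → Measure.map (t s) P = F) →
  ∀ Q : Om e → Prop, (∀ ω ω' : Om e, (∀ s, IsEdge s → ω s = ω' s) → (Q ω ↔ Q ω')) →
  (∀ᵐ ω ∂(PM e F), Q ω) → ∀ᵐ ω ∂P, Q (fun s => t s ω)

end Pool.Agent.J6H99.NX
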