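import Pool.Agent.J6H99.NX.Exp

/-!
# First-passage percolation: straight paths, quantiles
-/

set_option autoImplicit false

open MeasureTheory ProbabilityTheory Filter Topology
open scoped ENNReal

namespace Pool.Agent.J6H99.NX

variable {e : ℕ}

/-- a dimensional constant -/
noncomputable def cE (e : ℕ) : ℝ := 7 * ((e : ℝ) + 2)

lemma cE_pos (e : ℕ) : 0 < cE e := by unfold cE; positivity

lemma ten_le_cE (e : ℕ) : 10 ≤ cE e := by
  unfold cE
  have : (0 : ℝ) ≤ e := Nat.cast_nonneg e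
  linarith

/-- some walk from `x` to `y` in `R` has length at most `L` -/
def Wk (R : Set (V e)) (x y : V e) (L : ℝ) : Prop :=
  ∃ p : (lat e).Walk x y, (∀ v ∈ p.support, v ∈ R) ∧ (p.length : ℝ) ≤ L

lemma Wk_mono {R : Set (V e)} {x y : V e} {L L' : ℝ} (h : L ≤ L') (hw : Wk R x y L) :
    Wk R x y L' := by
  obtain ⟨p, h1, h2⟩ := hw
  exact ⟨p, h1, h2.trans h⟩

lemma Wk_trans {R : Set (V e)} {x y z : V e} {L L' : ℝ} (h : Wk R x y L) (h' : Wk R y z L') :
    Wk R x z (L + L') := by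
  obtain ⟨p, h1, h2⟩ := h
  obtain ⟨p', h3, h4⟩ := h'
  refine ⟨p.append p', fun v hv => ?_, ?_⟩
  · rw [SimpleGraph.Walk.mem_support_append_iff] at hv
    rcases hv with hv | hv
    · exact h1 v hv
    · exact h3 v hv
  · rw [SimpleGraph.Walk.length_append]
    push_cast
    linarith

lemma Wk_symm {R : Set (V e)} {x y : V e} {L : ℝ} (h : Wk R x y L) : Wk R y x L := by
  obtain ⟨p, h1, h2⟩ := h
  refine ⟨p.reverse, fun v hv => ?_, ?_⟩
  · rw [SimpleGraph.Walk.support_reverse, List.mem_reverse] at hv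
    exact h1 v hv
  · rw [SimpleGraph.Walk.length_reverse]; exact h2

/-- every walk contains a path -/
lemma Wk_path {R : Set (V e)} {x y : V e} {L : ℝ} (h : Wk R x y L) :
    ∃ p : (lat e).Walk x y, p.IsPath ∧ (∀ v ∈ p.support, v ∈ R) ∧ (p.length : ℝ) ≤ L := by
  classical
  obtain ⟨p, h1, h2⟩ := h
  refine ⟨p.bypass, p.bypass_isPath, fun v hv => h1 v (p.support_bypass_subset_support hv), ?_⟩
  have := p.length_bypass_le_length
  exact le_trans (by exact_mod_cast this) h2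

/-- a short walk stays in a ball -/
lemma Wk_ball {x y : V e} {R : Set (V e)} (h : ∀ z, n1 (z - x) ≤ n1 (y - x) → z ∈ R) :
    Wk R x y (n1 (y - x)) := by
  obtain ⟨p, hp⟩ := exists_walk_len x y
  refine ⟨p, fun v hv => h v ?_, ?_⟩
  · rw [← hp]; exact n1_le_of_mem p hv
  · have h2 : (p.length : ℝ) = (n1 (y - x) : ℝ) := by exact_mod_cast hp
    rw [h2]

lemma n1_le_of_nr {x y : V e} {z w : E e} {r s : ℝ} (hx : nr (vc x - z) ≤ r)
    (hy : nr (vc y - w) ≤ s) : (n1 (y - x) : ℝ) ≤ nr (w - z) + r + s := by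
  rw [← nr_vc, vc_sub]
  have h3 : vc y - vc x = (vc y - w) + ((w - z) + (z - vc x)) := by abel
  rw [h3]
  have h4 := nr_add_le (vc y - w) ((w - z) + (z - vc x))
  have h5 := nr_add_le (w - z) (z - vc x)
  rw [nr_sub_comm z] at h5
  linarith

/-- a walk along a chain of points -/
lemma Wk_chain {R : Set (V e)} (p : ℕ → V e) (m : ℝ) (h0 : p 0 ∈ R) :
    ∀ n : ℕ, (∀ j, j < n → (n1 (p (j + 1) - p j) : ℝ) ≤ m) →
    (∀ j, j < n → ∀ z, (n1 (z - p j) : ℝ) ≤ m → z ∈ R) →
    Wk R (p 0) (p n) (n * m) := by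
  intro n
  induction n with
  | zero =>
    intro _ _
    refine ⟨SimpleGraph.Walk.nil, fun v hv => ?_, by simp⟩
    rw [SimpleGraph.Walk.support_nil, List.mem_singleton] at hv
    rw [hv]; exact h0
  | succ n ih =>
    intro h1 h2
    have h3 := ih (fun j hj => h1 j (by omega)) (fun j hj => h2 j (by omega))
    have h4 : Wk R (p n) (p (n + 1)) (n1 (p (n + 1) - p n)) := by
      refine Wk_ball fun z hz => h2 n (by omega) z ?_
      have : (n1 (z - p n) : ℝ) ≤ n1 (p (n + 1) - p n) := by exact_mod_cast hz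
      exact this.trans (h1 n (by omega))
    refine Wk_mono ?_ (Wk_trans h3 h4)
    have := h1 n (by omega)
    push_cast
    linarith

/-- **Paths near a segment.** `a`, `b` real vectors, `x`, `y` lattice points at distance at most `r`
from `a` resp. `b`: some path from `x` to `y` of length at most `cE e * (|b - a| + r + 1)` stays
at distance at most `2 r + cE e` from the segment. -/
theorem seg_path {a b : E e} {x y : V e} {r : ℝ} (hr : 0 ≤ r)
    (hx : nr (vc x - a) ≤ r) (hy : nr (vc y - b) ≤ r) :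
    ∃ p : (lat e).Walk x y, p.IsPath ∧ (p.length : ℝ) ≤ cE e * (nr (b - a) + r + 1) ∧
      ∀ v ∈ p.support, ∃ t : ℝ, 0 ≤ t ∧ t ≤ 1 ∧ nr (vc v - (a + t • (b - a))) ≤ 2 * r + cE e := by
  set R : Set (V e) := {v | ∃ t : ℝ, 0 ≤ t ∧ t ≤ 1 ∧ nr (vc v - (a + t • (b - a))) ≤
    2 * r + cE e} with hRdef
  have hR : ∀ z : V e, (∃ t : ℝ, 0 ≤ t ∧ t ≤ 1 ∧ nr (vc z - (a + t • (b - a))) ≤ 2 * r + cE e) →
      z ∈ R := fun z hz => hz
  suffices hW : Wk R x y (cE e * (nr (b - a) + r + 1)) by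
    obtain ⟨p, h1, h2, h3⟩ := Wk_path hW
    exact ⟨p, h1, h3, h2⟩
  have he : (0 : ℝ) ≤ e := Nat.cast_nonneg e
  set N : ℕ := ⌈nr (b - a)⌉₊ + 1 with hN
  have hN1 : (1 : ℝ) ≤ N := by rw [hN]; push_cast; linarith [Nat.cast_nonneg (α := ℝ) ⌈nr (b - a)⌉₊]
  have hN0 : (0 : ℝ) < N := by linarith
  have hN2 : nr (b - a) ≤ N := by
    rw [hN]; push_cast
    have := Nat.le_ceil (nr (b - a))
    linarith
  have hN3 : (N : ℝ) ≤ nr (b - a) + 2 := by
    rw [hN]; push_cast
    have := Nat.ceil_lt_add_one (nr_nonneg (b - a))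
    linarith
  set P : ℕ → E e := fun j => a + ((j : ℝ) / N) • (b - a) with hP
  set p : ℕ → V e := fun j => rnd (P j) with hp
  have hpP : ∀ j, nr (vc (p j) - P j) ≤ (e : ℝ) + 2 := fun j => nr_rnd_sub (P j)
  have hstep : ∀ j, nr (P (j + 1) - P j) ≤ 1 := by
    intro j
    have : P (j + 1) - P j = (1 / (N : ℝ)) • (b - a) := by
      simp only [hP]
      push_cast
      rw [add_sub_add_left_eq_sub, ← sub_smul]
      congr 1
      field_simp
      ring
    rw [this, nr_smul, abs_of_pos (by positivity), one_div, inv_mul_le_iff₀ hN0]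
    linarith
  -- the middle part
  have hp0R : p 0 ∈ R := by
    refine hR _ ⟨0, le_rfl, zero_le_one, ?_⟩
    have h := hpP 0
    have hP00 : P 0 = a := by simp [hP]
    rw [zero_smul, add_zero, ← hP00]
    refine h.trans ?_
    unfold cE
    linarith
  have h1 : Wk R (p 0) (p N) (N * (1 + 2 * ((e : ℝ) + 2))) := by
    refine Wk_chain p _ hp0R N (fun j _ => ?_) (fun j hj z hz => hR z ?_)
    · have := n1_rnd_sub_le (P (j + 1)) (P j)
      have h := hstep j
      simp only [hp]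
      linarith
    · refine ⟨(j : ℝ) / N, by positivity, ?_, ?_⟩
      · rw [div_le_one hN0]; exact_mod_cast hj.le
      · have h2 : nr (vc z - P j) ≤ (1 + 2 * ((e : ℝ) + 2)) + ((e : ℝ) + 2) := by
          have h3 := nr_tri (vc z) (vc (p j)) (P j)
          rw [← vc_sub, nr_vc] at h3
          have := hpP j
          linarith
        refine h2.trans ?_
        unfold cE
        linarith
  have hP0 : P 0 = a := by simp [hP]
  have hPN : P N = b := by
    simp only [hP]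
    rw [div_self hN0.ne', one_smul]; abel
  -- the first part
  have h2 : Wk R x (p 0) (r + ((e : ℝ) + 2)) := by
    have hd : (n1 (p 0 - x) : ℝ) ≤ r + ((e : ℝ) + 2) := by
      have h3 := n1_le_of_nr hx (hpP 0)
      rw [hP0, sub_self, nr_zero] at h3
      linarith
    refine Wk_mono hd (Wk_ball fun z hz => ?_)
    refine hR z ⟨0, le_rfl, zero_le_one, ?_⟩
    rw [zero_smul, add_zero]
    have h3 : (n1 (z - x) : ℝ) ≤ n1 (p 0 - x) := by exact_mod_cast hz
    have h4 := nr_tri (vc z) (vc x) a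
    rw [← vc_sub, nr_vc] at h4
    unfold cE
    linarith
  have h3 : Wk R y (p N) (r + ((e : ℝ) + 2)) := by
    have hd : (n1 (p N - y) : ℝ) ≤ r + ((e : ℝ) + 2) := by
      have h3 := n1_le_of_nr hy (hpP N)
      rw [hPN, sub_self, nr_zero] at h3
      linarith
    refine Wk_mono hd (Wk_ball fun z hz => ?_)
    refine hR z ⟨1, zero_le_one, le_rfl, ?_⟩
    rw [one_smul, add_sub_cancel]
    have h3 : (n1 (z - y) : ℝ) ≤ n1 (p N - y) := by exact_mod_cast hz
    have h4 := nr_tri (vc z) (vc y) b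
    rw [← vc_sub, nr_vc] at h4
    unfold cE
    linarith
  refine Wk_mono ?_ (Wk_trans h2 (Wk_trans h1 (Wk_symm h3)))
  unfold cE
  have h5 : (N : ℝ) * (1 + 2 * ((e : ℝ) + 2)) ≤ (nr (b - a) + 2) * (1 + 2 * ((e : ℝ) + 2)) :=
    mul_le_mul_of_nonneg_right hN3 (by positivity)
  have h6 := mul_nonneg (nr_nonneg (b - a)) he
  have h7 := mul_nonneg hr he
  nlinarith [nr_nonneg (b - a)]

/-! ### canonical straight paths -/

lemma exists_sw (x y : V e) : ∃ p : (lat e).Walk x y, p.IsPath ∧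
    (p.length : ℝ) ≤ cE e * (n1 (y - x) + 1) ∧
    ∀ v ∈ p.support, ∃ t : ℝ, 0 ≤ t ∧ t ≤ 1 ∧ nr (vc v - (vc x + t • (vc y - vc x))) ≤ cE e := by
  obtain ⟨p, h1, h2, h3⟩ := seg_path (x := x) (y := y) (a := vc x) (b := vc y) (r := 0) le_rfl
    (by simp) (by simp)
  refine ⟨p, h1, ?_, ?_⟩
  · rw [← vc_sub, nr_vc] at h2
    linarith
  · simpa using h3

/-- the straight path from `x` to `y` -/
noncomputable def sw (x y : V e) : (lat e).Walk x y := (exists_sw x y).choose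

lemma sw_isPath (x y : V e) : (sw x y).IsPath := (exists_sw x y).choose_spec.1

lemma sw_length (x y : V e) : ((sw x y).length : ℝ) ≤ cE e * (n1 (y - x) + 1) :=
  (exists_sw x y).choose_spec.2.1

lemma sw_near (x y : V e) : ∀ v ∈ (sw x y).support, ∃ t : ℝ, 0 ≤ t ∧ t ≤ 1 ∧
    nr (vc v - (vc x + t • (vc y - vc x))) ≤ cE e := (exists_sw x y).choose_spec.2.2

/-- all straight paths in the ball of radius `m` around `z` are cheap, up to an error `θ m` -/
def Cheap (q : Par) (θ : ℝ) (m : ℕ) (z : V e) : Set (Om e) :=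
  {ω | ∀ x y : V e, n1 (x - z) ≤ m → n1 (y - z) ≤ m →
    cost q ω (sw x y) ≤ q.b * (cE e * (n1 (y - x) + 1)) + θ * m}

lemma Cheap_meas (q : Par) (θ : ℝ) (m : ℕ) (z : V e) : MeasurableSet (Cheap q θ m z) := by
  have h : Cheap q θ m z = ⋂ (x : V e) (y : V e) (_ : n1 (x - z) ≤ m) (_ : n1 (y - z) ≤ m),
      {ω : Om e | cost q ω (sw x y) ≤ q.b * (cE e * (n1 (y - x) + 1)) + θ * m} := by
    ext ω; simp [Cheap]
  rw [h]
  exact MeasurableSet.iInter fun x => MeasurableSet.iInter fun y => MeasurableSet.iInter fun _ =>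
    MeasurableSet.iInter fun _ => measurableSet_le (measurable_cost q _) measurable_const

lemma ball_card (e : ℕ) : ∃ C : ℝ, 0 < C ∧ ∀ (m : ℕ) (z : V e), 1 ≤ m →
    ∃ B : Finset (V e), (∀ x : V e, n1 (x - z) ≤ m → x ∈ B) ∧
      (B.card : ℝ) ≤ C * (m : ℝ) ^ (e + 2) := by
  classical
  refine ⟨3 ^ (e + 2), by positivity, fun m z hm => ?_⟩
  refine ⟨Fintype.piFinset fun i => Finset.Icc (z i - m) (z i + m), fun x hx => ?_, ?_⟩
  · rw [Fintype.mem_piFinset]
    intro i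
    have h1 := (coord_le_n1 (x - z) i).trans hx
    rw [Pi.sub_apply, abs_le] at h1
    rw [Finset.mem_Icc]
    constructor <;> linarith
  · rw [Fintype.card_piFinset]
    have h1 : ∀ i : Fin (e + 2), (Finset.Icc (z i - m) (z i + m)).card = 2 * m + 1 := by
      intro i
      rw [Int.card_Icc]
      omega
    simp only [h1, Finset.prod_const, Finset.card_univ, Fintype.card_fin]
    push_cast
    rw [← mul_pow]
    have h2 : (1 : ℝ) ≤ m := by exact_mod_cast hm
    refine pow_le_pow_left₀ (by positivity) (by linarith) _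

/-- union bound over the pairs of points of a ball -/
theorem union_pairs (q : Par) (F : Measure ℝ) [IsProbabilityMeasure F] {θ : ℝ} (hθ : 0 < θ)
    (k : ℕ) : ∃ C : ℝ, 0 < C ∧ ∀ (m : ℕ) (z : V e), 1 ≤ m → ∀ Bd : V e → V e → Set (Om e),
      (∀ x y, PM e F (Bd x y) ≤ ENNReal.ofReal (Real.exp (-(q.β * (θ * m))))) →
      PM e F {ω | ∃ x y : V e, n1 (x - z) ≤ m ∧ n1 (y - z) ≤ m ∧ ω ∈ Bd x y} ≤
        ENNReal.ofReal (C / (m : ℝ) ^ k) := by
  obtain ⟨C0, hC0, hball⟩ := ball_card e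
  have hβ := q.hβ
  set K : ℕ := 2 * (e + 2) + k with hK
  -- `exp (-x) ≤ K! / x ^ K`
  refine ⟨C0 ^ 2 * (K.factorial / (q.β * θ) ^ K), by positivity, fun m z hm Bd hBd => ?_⟩
  obtain ⟨B, hB, hcard⟩ := hball m z hm
  have hm0 : (0 : ℝ) < m := by exact_mod_cast hm
  have hexp : Real.exp (-(q.β * (θ * m))) ≤ K.factorial / (q.β * θ * m) ^ K := by
    have h1 : 0 < q.β * θ * m := by positivity
    have h2 := Real.pow_div_factorial_le_exp (q.β * θ * m) h1.le K
    rw [Real.exp_neg, inv_eq_one_div, div_le_div_iff₀ (Real.exp_pos _) (by positivity), one_mul]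
    rw [div_le_iff₀ (by positivity)] at h2
    calc (q.β * θ * m) ^ K ≤ Real.exp (q.β * θ * m) * K.factorial := h2
      _ = _ := by rw [mul_comm]; congr 2; ring
  have hsub : {ω | ∃ x y : V e, n1 (x - z) ≤ m ∧ n1 (y - z) ≤ m ∧ ω ∈ Bd x y} ⊆
      ⋃ x ∈ B, ⋃ y ∈ B, Bd x y := by
    rintro ω ⟨x, y, hx, hy, hω⟩
    exact Set.mem_iUnion₂.2 ⟨x, hB x hx, Set.mem_iUnion₂.2 ⟨y, hB y hy, hω⟩⟩
  calc PM e F {ω | ∃ x y : V e, n1 (x - z) ≤ m ∧ n1 (y - z) ≤ m ∧ ω ∈ Bd x y}
      ≤ PM e F (⋃ x ∈ B, ⋃ y ∈ B, Bd x y) := measure_mono hsub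
    _ ≤ ∑ x ∈ B, ∑ y ∈ B, PM e F (Bd x y) :=
        (measure_biUnion_finset_le _ _).trans (Finset.sum_le_sum fun x _ =>
          measure_biUnion_finset_le _ _)
    _ ≤ ∑ _x ∈ B, ∑ _y ∈ B, ENNReal.ofReal (K.factorial / (q.β * θ * m) ^ K) :=
        Finset.sum_le_sum fun x _ => Finset.sum_le_sum fun y _ =>
          (hBd x y).trans (ENNReal.ofReal_le_ofReal hexp)
    _ = ENNReal.ofReal ((B.card : ℝ) ^ 2 * (K.factorial / (q.β * θ * m) ^ K)) := by
        simp only [Finset.sum_const, nsmul_eq_mul]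
        rw [ENNReal.ofReal_mul (by positivity), ENNReal.ofReal_pow (Nat.cast_nonneg _),
          ENNReal.ofReal_natCast]
        ring
    _ ≤ _ := by
        refine ENNReal.ofReal_le_ofReal ?_
        have h3 : (B.card : ℝ) ^ 2 ≤ (C0 * (m : ℝ) ^ (e + 2)) ^ 2 :=
          pow_le_pow_left₀ (Nat.cast_nonneg _) hcard 2
        calc (B.card : ℝ) ^ 2 * (K.factorial / (q.β * θ * m) ^ K)
            ≤ (C0 * (m : ℝ) ^ (e + 2)) ^ 2 * (K.factorial / (q.β * θ * m) ^ K) :=
              mul_le_mul_of_nonneg_right h3 (by positivity)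
          _ = _ := by
              rw [hK, mul_pow (q.β * θ) (m : ℝ), pow_add (m : ℝ) (2 * (e + 2)) k,
                pow_mul' (m : ℝ) 2 (e + 2)]
              field_simp

/-- cheap straight paths, with failure probability smaller than every power -/
theorem prob_Cheap (q : Par) (F : Measure ℝ) [IsProbabilityMeasure F] [MB q F] {θ : ℝ}
    (hθ : 0 < θ) (k : ℕ) : ∃ C : ℝ, 0 < C ∧ ∀ (m : ℕ) (z : V e), 1 ≤ m →
      PM e F (Cheap q θ m z)ᶜ ≤ ENNReal.ofReal (C / (m : ℝ) ^ k) := by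
  obtain ⟨C, hC, h⟩ := union_pairs (e := e) q F hθ k
  refine ⟨C, hC, fun m z hm => (measure_mono ?_).trans (h m z hm
    (fun x y => {ω : Om e | q.b * (sw x y).length + θ * m ≤ cost q ω (sw x y)})
    fun x y => tail_cost q F (sw_isPath x y) (θ * m))⟩
  intro ω hω
  have h1 : ¬ ∀ x y : V e, n1 (x - z) ≤ m → n1 (y - z) ≤ m →
    cost q ω (sw x y) ≤ q.b * (cE e * (n1 (y - x) + 1)) + θ * m := hω
  push Not at h1
  obtain ⟨x, y, hx, hy, hlt⟩ := h1
  refine ⟨x, y, hx, hy, ?_⟩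
  have h2 := mul_le_mul_of_nonneg_left (sw_length x y) q.hb.le
  show q.b * (sw x y).length + θ * m ≤ cost q ω (sw x y)
  linarith

/-- the passage times in the ball of radius `m` around `z` are Lipschitz, up to an error `θ m` -/
def TB (q : Par) (θ : ℝ) (m : ℕ) (z : V e) : Set (Om e) :=
  {ω | ∀ x y : V e, n1 (x - z) ≤ m → n1 (y - z) ≤ m →
    T q ω x y ≤ q.b * n1 (y - x) + θ * m}

lemma TB_meas (q : Par) (θ : ℝ) (m : ℕ) (z : V e) : MeasurableSet (TB q θ m z) := by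
  have h : TB q θ m z = ⋂ (x : V e) (y : V e) (_ : n1 (x - z) ≤ m) (_ : n1 (y - z) ≤ m),
      {ω : Om e | T q ω x y ≤ q.b * n1 (y - x) + θ * m} := by
    ext ω; simp [TB]
  rw [h]
  exact MeasurableSet.iInter fun x => MeasurableSet.iInter fun y => MeasurableSet.iInter fun _ =>
    MeasurableSet.iInter fun _ => measurableSet_le (measurable_T q _ _) measurable_const

/-- Lipschitz passage times, with failure probability smaller than every power -/
theorem prob_TB (q : Par) (F : Measure ℝ) [IsProbabilityMeasure F] [MB q F] {θ : ℝ}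
    (hθ : 0 < θ) (k : ℕ) : ∃ C : ℝ, 0 < C ∧ ∀ (m : ℕ) (z : V e), 1 ≤ m →
      PM e F (TB q θ m z)ᶜ ≤ ENNReal.ofReal (C / (m : ℝ) ^ k) := by
  obtain ⟨C, hC, h⟩ := union_pairs (e := e) q F hθ k
  refine ⟨C, hC, fun m z hm => (measure_mono ?_).trans (h m z hm
    (fun x y => {ω : Om e | q.b * n1 (y - x) + θ * m ≤ T q ω x y})
    fun x y => tail_T q F x y (θ * m))⟩
  intro ω hω
  have h1 : ¬ ∀ x y : V e, n1 (x - z) ≤ m → n1 (y - z) ≤ m →
    T q ω x y ≤ q.b * n1 (y - x) + θ * m := hω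
  push Not at h1
  obtain ⟨x, y, hx, hy, hlt⟩ := h1
  exact ⟨x, y, hx, hy, hlt.le⟩

section

variable {q : Par} {F : Measure ℝ} [IsProbabilityMeasure F] {ι : Type} [Fintype ι]

/-- wide tubes can be crossed with high probability -/
lemma K_tendsto [MB q F] (D : Cor e q F ι) (l : ℕ) :
    Tendsto (fun w : ℕ => PM e F (K D l w)) atTop (𝓝 1) := by
  set y := rnd ((l : ℝ) • D.v) with hy
  obtain ⟨p, hp, hl⟩ := exists_path_len (0 : V e) y
  obtain ⟨w0, hw0⟩ := exists_nat_ge ((l : ℝ) +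
    (nr D.chi + ∑ i, nr (D.f i)) * n1 y + nr D.chi * n1 y)
  have h0 : (0 : ℝ) ≤ n1 y := by exact_mod_cast n1_nonneg y
  have hc := nr_nonneg D.chi
  have hs : 0 ≤ ∑ i, nr (D.f i) := Finset.sum_nonneg fun i _ => nr_nonneg _
  have hl0 : (0 : ℝ) ≤ l := Nat.cast_nonneg l
  -- the path is in the tube
  have hR : ∀ w : ℕ, w0 ≤ w → ∀ v ∈ p.support, v ∈ Tube D l w := by
    intro w hw v hv
    have hww : (w0 : ℝ) ≤ w := by exact_mod_cast hw
    have hz : n1 v ≤ n1 y := by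
      have := n1_le_of_mem p hv
      rw [sub_zero] at this hl
      exact this.trans_eq hl
    have hz' : (n1 v : ℝ) ≤ n1 y := by exact_mod_cast hz
    have h2 := abs_le.1 (abs_lf_le D.chi v)
    have h3 := mul_le_mul_of_nonneg_left hz' hc
    have p2 : 0 ≤ nr D.chi * (n1 y : ℝ) := mul_nonneg hc h0
    have p3 : 0 ≤ (∑ i, nr (D.f i)) * (n1 y : ℝ) := mul_nonneg hs h0
    refine ⟨by nlinarith, by nlinarith, fun i => ?_⟩
    have h4 := abs_le.1 (abs_lf_le (D.f i) v)
    have h5 : nr (D.f i) ≤ ∑ j, nr (D.f j) :=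
      Finset.single_le_sum (f := fun j => nr (D.f j)) (fun j _ => nr_nonneg _)
        (Finset.mem_univ i)
    have h6 : nr (D.f i) * (n1 v : ℝ) ≤ (∑ j, nr (D.f j)) * n1 y :=
      mul_le_mul h5 hz' (by exact_mod_cast n1_nonneg v) hs
    nlinarith
  have hlow : ∀ w : ℕ, w0 ≤ w → PM e F {ω | cost q ω p ≤ w} ≤ PM e F (K D l w) := by
    intro w hw
    refine measure_mono fun ω hω => ⟨p, edges_EIn (hR w hw), ?_⟩
    have : cost q ω p ≤ w := hω
    linarith
  have h1 : Tendsto (fun w : ℕ => PM e F {ω | cost q ω p ≤ w}) atTop (𝓝 1) := by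
    have hU : ⋃ w : ℕ, {ω : Om e | cost q ω p ≤ w} = Set.univ := by
      refine Set.eq_univ_of_forall fun ω => ?_
      obtain ⟨n, hn⟩ := exists_nat_ge (cost q ω p)
      exact Set.mem_iUnion.2 ⟨n, hn⟩
    have hmono : Monotone fun w : ℕ => {ω : Om e | cost q ω p ≤ w} := by
      intro w w' hww ω hω
      have h1 : cost q ω p ≤ w := hω
      have h2 : (w : ℝ) ≤ w' := by exact_mod_cast hww
      exact h1.trans h2
    have := tendsto_measure_iUnion_atTop (μ := PM e F) hmono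
    rw [hU, measure_univ] at this
    exact this
  refine tendsto_of_tendsto_of_tendsto_of_le_of_le' h1 tendsto_const_nhds ?_ ?_
  · filter_upwards [eventually_ge_atTop w0] with w hw
    exact hlow w hw
  · exact Eventually.of_forall fun w => prob_le_one

lemma kk_spec [MB q F] (D : Cor e q F ι) {ε : ℝ} (hε : ε < 1) (l : ℕ) :
    ENNReal.ofReal ε ≤ PM e F (K D l (kk D ε l)) := by
  have h : (kk D ε l) ∈ {w : ℕ | ENNReal.ofReal ε ≤ PM e F (K D l w)} := by
    refine Nat.sInf_mem ?_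
    have h1 : ENNReal.ofReal ε < 1 := by
      rw [← ENNReal.ofReal_one]
      exact (ENNReal.ofReal_lt_ofReal_iff one_pos).2 hε
    obtain ⟨w, hw⟩ := ((tendsto_order.1 (K_tendsto D l)).1 _ h1).exists
    exact ⟨w, hw.le⟩
  exact h

lemma kk_le (D : Cor e q F ι) {ε : ℝ} {l w : ℕ} (h : ENNReal.ofReal ε ≤ PM e F (K D l w)) :
    kk D ε l ≤ w := Nat.sInf_le h

lemma lt_kk (D : Cor e q F ι) {ε : ℝ} {l w : ℕ} (h : w < kk D ε l) :
    PM e F (K D l w) < ENNReal.ofReal ε := by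
  by_contra h'
  push Not at h'
  exact absurd (kk_le D h') (by omega)

lemma kk_anti [MB q F] (D : Cor e q F ι) {ε ε' : ℝ} (h : ε ≤ ε') (hε : ε' < 1) (l : ℕ) :
    kk D ε l ≤ kk D ε' l :=
  kk_le D ((ENNReal.ofReal_le_ofReal h).trans (kk_spec D hε l))

end

end Pool.Agent.J6H99.NX
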